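import Pool.Agent.P.MP_cc10d1_gt.R.Env

/-! The enveloping group of a connected affine quandle (after Clauwens). -/

set_option autoImplicit false

namespace Pool.Agent.P.MP_cc10d1_gt.R

open T Rack Quandles

/-- The values of characters. -/
abbrev U : Type := Additive ℂˣ

theorem card_hom (A : Type) [AddCommGroup A] [Finite A] : Nat.card (A →+ U) = Nat.card A :=
  (Nat.card_congr AddMonoidHom.toMultiplicativeLeft).trans
    (CommGroup.card_monoidHom_of_hasEnoughRootsOfUnity (Multiplicative A) ℂ)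

variable {M : Type} [AddCommGroup M] (θ : M ≃+ M)

/-- The twisted symmetric forms. -/
def Forms : Type := {B : M →+ M →+ U // ∀ x y, B x y = B y (θ x)}

/-- The generators. -/
def ee (x : M) : EnvelGroup (Aff θ) := S.gen (C := Aff θ) x

/-- The generators of degree zero. -/
def gg (x : M) : EnvelGroup (Aff θ) := ee θ x * (ee θ 0)⁻¹

/-- The action on the module. -/
def ac (u : EnvelGroup (Aff θ)) (x : M) : M := S.ea (C := Aff θ) u x

theorem ac_mul (u v : EnvelGroup (Aff θ)) (x : M) : ac θ (u * v) x = ac θ u (ac θ v x) := by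
  unfold ac; rw [map_mul]; rfl

theorem ac_one (x : M) : ac θ 1 x = x := by unfold ac; rw [map_one]; rfl

theorem conj_ee (u : EnvelGroup (Aff θ)) (x : M) : u * ee θ x * u⁻¹ = ee θ (ac θ u x) :=
  S.conj_gen (C := Aff θ) u x

theorem ac_gg (x y : M) : ac θ (gg θ x) y = y + (x - θ x) := by
  unfold gg ac ee
  rw [map_mul, map_inv]
  change afa θ x (afa θ.symm 0 y) = _
  simp only [afa, sub_zero, zero_add, map_sub, AddEquiv.apply_symm_apply]
  abel

theorem gg_zero : gg θ 0 = 1 := mul_inv_cancel _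

/-- The cocycle. -/
def lam (x y : M) : EnvelGroup (Aff θ) := gg θ x * gg θ y * (gg θ (x + y))⁻¹

theorem ac_lam (x y w : M) : ac θ (lam θ x y) w = w := by
  have : w = ac θ (gg θ (x + y)) (w - (x + y - θ (x + y))) := by rw [ac_gg, sub_add_cancel]
  rw [this, ← ac_mul, lam, inv_mul_cancel_right, ac_mul, ac_gg, ac_gg, ac_gg, map_add]
  abel

theorem lam_comm (x y : M) (v : EnvelGroup (Aff θ)) : Commute (lam θ x y) v :=
  S.central_of_ea (C := Aff θ) (Equiv.ext fun w => ac_lam θ x y w) v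

theorem gg_mul (x y : M) : gg θ x * gg θ y = lam θ x y * gg θ (x + y) := by
  rw [lam, inv_mul_cancel_right]

theorem gg_conj (x y : M) :
    gg θ x * gg θ y * (gg θ x)⁻¹ = (lam θ y (x - θ x))⁻¹ * gg θ y := by
  have h : gg θ x * gg θ y * (gg θ x)⁻¹ = (gg θ x * ee θ y * (gg θ x)⁻¹) *
      (gg θ x * ee θ 0 * (gg θ x)⁻¹)⁻¹ := by rw [gg.eq_1 θ y]; group
  rw [h, conj_ee, conj_ee, ac_gg, ac_gg, zero_add, lam, gg, gg, gg]
  group

theorem lam_right (hd : Function.Surjective fun x : M => x - θ x) (y z z' : M) :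
    lam θ y (z + z') = lam θ y z * lam θ y z' := by
  obtain ⟨x, rfl⟩ := hd z
  obtain ⟨x', rfl⟩ := hd z'
  have h := gg_conj θ (x + x') y
  have e : gg θ (x + x') = (lam θ x x')⁻¹ * (gg θ x * gg θ x') := by
    rw [gg_mul, inv_mul_cancel_left]
  have e2 : ∀ a v : EnvelGroup (Aff θ), (lam θ x x')⁻¹ * a * v * ((lam θ x x')⁻¹ * a)⁻¹ =
      a * v * a⁻¹ := fun a v => by
    rw [mul_inv_rev, inv_inv, mul_assoc _ a, ← mul_assoc _ a⁻¹, mul_assoc _ (a * v),
      mul_assoc _ (a * v * a⁻¹), ← (lam_comm θ x x' _).eq, inv_mul_cancel_left]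
  have e3 : gg θ x * gg θ x' * gg θ y * (gg θ x * gg θ x')⁻¹ =
      gg θ x * (gg θ x' * gg θ y * (gg θ x')⁻¹) * (gg θ x)⁻¹ := by group
  rw [e, e2, e3, gg_conj, ← mul_assoc, ← (lam_comm θ y _ (gg θ x)).inv_left.eq, mul_assoc _ (gg θ x),
    mul_assoc, gg_conj, ← mul_assoc, mul_left_inj, ← mul_inv_rev, inv_inj, map_add,
    add_sub_add_comm] at h
  exact h.symm

theorem lam_neg (hd : Function.Surjective fun x : M => x - θ x) (y z z' : M) :
    lam θ y (z - z') = lam θ y z * (lam θ y z')⁻¹ := by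
  rw [eq_mul_inv_iff_mul_eq, ← lam_right θ hd, sub_add_cancel]

theorem lam_swap (hd : Function.Surjective fun x : M => x - θ x) (x y : M) :
    lam θ x y = lam θ y (θ x) := by
  have h := gg_conj θ x y
  rw [mul_inv_eq_iff_eq_mul, mul_assoc, gg_mul, gg_mul, add_comm y, ← mul_assoc, mul_left_inj,
    lam_neg θ hd, mul_inv_rev, inv_inv, inv_mul_cancel_right] at h
  exact h

theorem lam_left (hd : Function.Surjective fun x : M => x - θ x) (x x' y : M) :
    lam θ (x + x') y = lam θ x y * lam θ x' y := by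
  rw [lam_swap θ hd, map_add, lam_right θ hd, ← lam_swap θ hd, ← lam_swap θ hd]

/-- The subgroup generated by the values of the cocycle. -/
def ZZ : Subgroup (EnvelGroup (Aff θ)) := Subgroup.closure (Set.range fun p : M × M => lam θ p.1 p.2)

theorem lam_mem (x y : M) : lam θ x y ∈ ZZ θ := Subgroup.subset_closure ⟨(x, y), rfl⟩

theorem ZZ_le : ZZ θ ≤ (S.ea (C := Aff θ)).ker ⊓ (S.deg (C := Aff θ)).ker :=
  (Subgroup.closure_le _).2 (by
    rintro _ ⟨p, rfl⟩
    refine ⟨Equiv.ext fun w => ac_lam θ _ _ w, MonoidHom.mem_ker.2 ?_⟩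
    simp only [lam, gg, ee, map_mul, map_inv, S.deg_gen,
      mul_inv_cancel, inv_one, mul_one])

theorem ZZ_comm {z : EnvelGroup (Aff θ)} (h : z ∈ ZZ θ) (v : EnvelGroup (Aff θ)) : Commute z v :=
  S.central_of_ea (ZZ_le θ h).1 v

theorem normal_form (u : EnvelGroup (Aff θ)) :
    ∃ z ∈ ZZ θ, ∃ (x : M) (k : ℤ), u = z * gg θ x * ee θ 0 ^ k := by
  have hc : ∀ (k : ℤ) (y : M), ∃ y', ee θ 0 ^ k * gg θ y = gg θ y' * ee θ 0 ^ k := fun k y =>
    ⟨ac θ (ee θ 0 ^ k) y, by rw [gg, gg, ← conj_ee]; group⟩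
  induction u using S.env_ind with
  | h1 => exact ⟨1, one_mem _, 0, 0, by simp [gg_zero]⟩
  | hg a => exact ⟨1, one_mem _, a, 1, by simp [gg, ee]⟩
  | hm u v hu hv =>
    obtain ⟨z, hz, x, k, rfl⟩ := hu
    obtain ⟨z', hz', y, m, rfl⟩ := hv
    obtain ⟨y', e⟩ := hc k y
    refine ⟨z' * z * lam θ x y', mul_mem (mul_mem hz' hz) (lam_mem θ _ _), x + y', k + m, ?_⟩
    rw [mul_assoc z', ← mul_assoc _ z', ← (ZZ_comm θ hz' _).eq, mul_assoc _ (lam θ _ _), ← gg_mul,
      zpow_add]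
    simp only [mul_assoc]
    rw [← mul_assoc (gg θ y'), ← e, mul_assoc]
  | hi u hu =>
    obtain ⟨z, hz, x, k, rfl⟩ := hu
    obtain ⟨y', e⟩ := hc (-k) (-x)
    have e1 : (gg θ x)⁻¹ = gg θ (-x) * (lam θ x (-x))⁻¹ := by
      rw [lam, add_neg_cancel, gg_zero]; group
    refine ⟨(z * lam θ x (-x))⁻¹, inv_mem (mul_mem hz (lam_mem θ _ _)), y', -k, ?_⟩
    rw [mul_assoc _ (gg θ y'), ← e, (ZZ_comm θ (inv_mem (mul_mem hz (lam_mem θ _ _))) _).eq,
      mul_inv_rev, mul_inv_rev, e1]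
    group

theorem card_comm (hi : Function.Injective fun x : M => x - θ x) (hc : Cn (Aff θ)) :
    Nat.card (commutator (EnvelGroup (Aff θ))) = Nat.card (ZZ θ) * Nat.card M := by
  have hd : ∀ x, S.deg (gg θ x) = 1 := fun x => by
    simp only [gg, ee, map_mul, map_inv, S.deg_gen, mul_inv_cancel]
  rw [← Nat.card_prod]
  symm
  refine Nat.card_eq_of_bijective (fun p => ⟨p.1 * gg θ p.2, S.ker_deg (conn_of_cn hc) (0 : M)
    (by rw [map_mul, hd, mul_one]; exact (ZZ_le θ p.1.2).2)⟩) ⟨?_, ?_⟩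
  · rintro ⟨z, x⟩ ⟨z', y⟩ e
    have e1 : z.1 * gg θ x = z'.1 * gg θ y := congrArg Subtype.val e
    have e2 := congrArg (fun u => ac θ u 0) e1
    simp only [ac] at e2
    rw [map_mul, map_mul, (ZZ_le θ z.2).1, (ZZ_le θ z'.2).1, one_mul, one_mul] at e2
    have e3 := (ac_gg θ x 0).symm.trans (e2.trans (ac_gg θ y 0))
    obtain rfl : x = y := hi (add_left_cancel e3)
    obtain rfl : z = z' := Subtype.ext (mul_right_cancel e1)
    rfl
  · rintro ⟨u, hu⟩
    obtain ⟨z, hz, x, k, rfl⟩ := normal_form θ u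
    have e := S.deg_commutator hu
    rw [map_mul, map_mul, hd, (ZZ_le θ hz).2, map_zpow, ee, S.deg_gen, ← ofAdd_zsmul, one_mul,
      one_mul, ofAdd_eq_one, smul_eq_mul, mul_one] at e
    subst e
    exact ⟨(⟨z, hz⟩, x), Subtype.ext (by simp)⟩

/-- The permutations attached to a form. -/
def PB (B : Forms θ) (x : M) : Equiv.Perm (M × U) where
  toFun p := (x + θ p.1, p.2 + B.1 x (θ p.1))
  invFun p := (θ.symm (p.1 - x), p.2 - B.1 x (p.1 - x))
  left_inv p := by simp
  right_inv p := by simp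

theorem cHom_PB (B : Forms θ) : CHom (Q := Aff θ) fun x => PB (M := M) θ B x := by
  intro (x : M) (y : M)
  refine Equiv.ext fun p => ?_
  change PB θ B (afa θ x y) (PB θ B x p) = PB θ B x (PB θ B y p)
  have h : ∀ a b, B.1 (θ a) (θ b) = B.1 a b := fun a b => by rw [← B.2, ← B.2]
  refine Prod.ext ?_ ?_
  · simp only [PB, afa, Equiv.coe_fn_mk, map_add, map_sub]; abel
  · simp only [PB, afa, Equiv.coe_fn_mk, map_add, map_sub, AddMonoidHom.add_apply,
      AddMonoidHom.sub_apply, h]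
    rw [← B.2 x x, B.2 y x]
    abel

theorem card_ZZ (hd : Function.Surjective fun x : M => x - θ x) [Finite (ZZ θ)] :
    Nat.card (ZZ θ) = Nat.card (Forms θ) := by
  let _ : CommGroup (ZZ θ) :=
    { (inferInstance : Group (ZZ θ)) with
      mul_comm := fun a b => Subtype.ext (ZZ_comm θ a.2 b.1).eq }
  rw [← CommGroup.card_monoidHom_of_hasEnoughRootsOfUnity (ZZ θ) ℂ]
  let l : M → M → ZZ θ := fun x y => ⟨lam θ x y, lam_mem θ x y⟩
  have l1 : ∀ x y y', l x (y + y') = l x y * l x y' := fun x y y' =>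
    Subtype.ext (lam_right θ hd x y y')
  have l2 : ∀ x x' y, l (x + x') y = l x y * l x' y := fun x x' y =>
    Subtype.ext (lam_left θ hd x x' y)
  refine Nat.card_eq_of_bijective (fun χ => ⟨AddMonoidHom.mk'
    (fun x => AddMonoidHom.mk' (fun y => Additive.ofMul (χ (l x y))) fun y y' => by
      rw [l1, map_mul, ofMul_mul]) fun x x' => AddMonoidHom.ext fun y => by
      change Additive.ofMul (χ (l (x + x') y)) = _
      rw [l2, map_mul, ofMul_mul]; rfl, fun x y =>
      congrArg (fun u => Additive.ofMul (χ u)) (Subtype.ext (lam_swap θ hd x y))⟩) ⟨?_, ?_⟩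
  · intro χ χ' e
    refine MonoidHom.ext fun ⟨z, hz⟩ => ?_
    induction hz using Subgroup.closure_induction with
    | mem g hg =>
      obtain ⟨p, rfl⟩ := hg
      exact congrArg (fun B : Forms θ => Additive.toMul (B.1 p.1 p.2)) e
    | one => exact (map_one χ).trans (map_one χ').symm
    | mul g g' hg hg' h h' =>
      exact (map_mul χ ⟨g, hg⟩ ⟨g', hg'⟩).trans ((congrArg₂ _ h h').trans
        (map_mul χ' ⟨g, hg⟩ ⟨g', hg'⟩).symm)
    | inv g hg h =>
      exact (map_inv χ ⟨g, hg⟩).trans ((congrArg _ h).trans (map_inv χ' ⟨g, hg⟩).symm)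
  · intro B
    let f := S.lift (C := Aff θ) (fun x => PB (M := M) θ B x) (cHom_PB θ B).conj
    have h1 : ∀ x w c, f (gg θ x) (w, c) = (x + w, c + B.1 x w) := fun x w c => by
      rw [gg, map_mul, map_inv]
      change PB θ B x ((PB θ B 0).symm (w, c)) = _
      simp [PB]
    have h2 : ∀ x y w c, f (lam θ x y) (w, c) = (w, c + B.1 x y) := fun x y w c => by
      have e : (w, c) = f (gg θ (x + y)) (w - (x + y), c - B.1 (x + y) (w - (x + y))) := by
        rw [h1]; simp
      rw [e, ← Equiv.Perm.mul_apply, ← map_mul, ← gg_mul, map_mul, Equiv.Perm.mul_apply, h1, h1]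
      refine Prod.ext ?_ ?_
      · dsimp only; abel
      · simp only [map_add, map_sub, AddMonoidHom.add_apply]; abel
    have h3 : ∀ z ∈ ZZ θ, ∃ t, ∀ w c, f z (w, c) = (w, c + t) := fun z hz => by
      induction hz using Subgroup.closure_induction with
      | mem g hg => obtain ⟨p, rfl⟩ := hg; exact ⟨_, h2 p.1 p.2⟩
      | one => exact ⟨0, fun w c => by simp⟩
      | mul g g' _ _ h h' =>
        obtain ⟨t, h⟩ := h
        obtain ⟨t', h'⟩ := h'
        exact ⟨t' + t, fun w c => by rw [map_mul, Equiv.Perm.mul_apply, h', h, add_assoc]⟩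
      | inv g _ h =>
        obtain ⟨t, h⟩ := h
        exact ⟨-t, fun w c => by rw [map_inv, Equiv.Perm.inv_eq_iff_eq, h, neg_add_cancel_right]⟩
    refine ⟨MonoidHom.mk' (fun z => Additive.toMul (f z.1 (0, 0)).2) fun z z' => ?_, ?_⟩
    · obtain ⟨t, h⟩ := h3 _ z.2
      obtain ⟨t', h'⟩ := h3 _ z'.2
      simp only [Subgroup.coe_mul, map_mul, Equiv.Perm.mul_apply, h, h', zero_add, toMul_add,
        mul_comm]
    · refine Subtype.ext (AddMonoidHom.ext fun x => AddMonoidHom.ext fun y => ?_)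
      change (f (lam θ x y) (0, 0)).2 = _
      rw [h2, zero_add]

theorem card_env (hd : Function.Bijective fun x : M => x - θ x) (hc : Cn (Aff θ))
    [Finite (commutator (EnvelGroup (Aff θ)))] :
    Nat.card (commutator (EnvelGroup (Aff θ))) = Nat.card (Forms θ) * Nat.card M := by
  have : Finite (ZZ θ) := Finite.of_injective _ (Subgroup.inclusion_injective
    (fun z hz => S.ker_deg (conn_of_cn hc) (0 : M) (ZZ_le θ hz).2 : ZZ θ ≤ commutator _))
  rw [card_comm θ hd.1 hc, card_ZZ θ hd.2]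

end Pool.Agent.P.MP_cc10d1_gt.R
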