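import Pool.Agent.P.MP_cc10d1_gt.T.Defs

/-! Random closed braids: means over all words of a given length. -/

set_option autoImplicit false

namespace Pool.Agent.P.MP_cc10d1_gt.R

/-- The sum of `F` over the closures of all braid words of length `L` on `n + 1` strands whose
closure is a knot. -/
noncomputable def tot (n L : ℕ) (F : Knot → ℝ) : ℝ :=
  ∑ w : Fin L → Fin n × Bool, val F n (List.ofFn w)

/-- The mean of `F` over the braid words of length `L` on `n + 1` strands whose closure is a knot
in `E`. -/
noncomputable def mean (n L : ℕ) (E : Set Knot) (F : Knot → ℝ) : ℝ :=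
  tot n L (E.indicator F) / tot n L (E.indicator 1)

/-- The non-empty connected subquandles. -/
def CS (X : Type*) [Quandle X] : Type _ := {Y : Set X // Y.Nonempty ∧ ConnSub Y}

/-- A connected subquandle as a quandle. -/
abbrev Sub {X : Type*} [Quandle X] (Y : CS X) : Type _ := T.SubQ ⟨Y.1, Y.2.2.1⟩

end Pool.Agent.P.MP_cc10d1_gt.R
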