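import Pool.Agent.P.MP_cc10d1_gt.R.Walk
import Pool.Agent.P.MP_cc10d1_gt.R.Defs
import Pool.Agent.P.MP_cc10d1_gt.T.All
import Pool.Agent.P.MP_cc10d1_gt.T.Univ

/-! The mean number of fixed tuples in one orbit of connected tuples is one. -/

set_option autoImplicit false

namespace Pool.Agent.P.MP_cc10d1_gt.R

open Finset Filter Topology T

/-- Events: sets of knot braids that are unions of cosets. -/
structure Ev (n : ℕ) (E : Br n → Prop) : Prop where
  knot : ∀ b, E b → ∀ i j, (pm n b).SameCycle i j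
  inv : ∃ d, ∀ b c, E b → c ∈ CC n d → E (b * c)
  ne : ∃ b, E b

/-- The conditional mean. -/
noncomputable def bm {n : ℕ} (L : ℕ) (E : Br n → Prop) (g : Br n → ℝ) : ℝ :=
  Lam ltr L (fun b => ind E b * g b) / Lam ltr L (ind E)

/-- The conditional means converge. -/
def Lim {n : ℕ} (E : Br n → Prop) (g : Br n → ℝ) (m : ℝ) : Prop :=
  Tendsto (fun l => bm (n + 2 * l) E g) atTop (𝓝 m)

variable {n : ℕ}

theorem bm_mono (L : ℕ) {E : Br n → Prop} {g g' : Br n → ℝ} (h : ∀ b, E b → g b ≤ g' b) :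
    bm L E g ≤ bm L E g' := by
  refine div_le_div_of_nonneg_right (Lam_mono _ _ fun b => ?_) (Lam_nonneg _ _ (ind_nonneg E))
  by_cases hb : E b
  · rw [ind_pos hb, one_mul, one_mul]; exact h b hb
  · rw [ind_neg hb, zero_mul, zero_mul]

theorem Lim.congr {E : Br n → Prop} {g g' : Br n → ℝ} {m : ℝ} (h : ∀ b, E b → g b = g' b)
    (hl : Lim E g m) : Lim E g' m :=
  Tendsto.congr (fun _ => le_antisymm (bm_mono _ fun b hb => (h b hb).le)
    (bm_mono _ fun b hb => (h b hb).ge)) hl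

theorem Lim.sum {J : Type*} (t : Finset J) {E : Br n → Prop} {g : J → Br n → ℝ} {m : J → ℝ}
    (h : ∀ j ∈ t, Lim E (g j) (m j)) : Lim E (fun b => ∑ j ∈ t, g j b) (∑ j ∈ t, m j) := by
  refine Tendsto.congr (fun l => ?_) (tendsto_finsetSum t h)
  simp only [bm, mul_sum, Lam_sum, sum_div]

theorem Lim.mul {E : Br n → Prop} {g : Br n → ℝ} {m : ℝ} (c : ℝ) (h : Lim E g m) :
    Lim E (fun b => c * g b) (c * m) := by
  refine Tendsto.congr (fun l => ?_) (h.const_mul c)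
  simp only [bm, mul_left_comm _ c, Lam_mul, mul_div_assoc]

/-- The inverse letter. -/
def flip (n : ℕ) : Fin n × Bool ≃ Fin n × Bool := (Equiv.refl _).prodCongr Equiv.boolNot

theorem ltr_flip (c : Fin n × Bool) : ltr (flip n c) = (ltr c)⁻¹ := by
  obtain ⟨i, _ | _⟩ := c
  · exact (inv_inv _).symm
  · rfl

theorem kes_CC (n d : ℕ) : Kes ltr (CC n d) := by
  induction d with
  | zero => exact kes_finite ltr (flip n) ltr_flip (pm n) (all_COX n)
  | succ d ih =>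
    exact kes_step ltr (flip n) ltr_flip
      (fun a ha b hb => Subgroup.commutator_mem_commutator ha (gam_le _ _ hb)) ih

theorem pm_CC {d : ℕ} {c : Br n} (h : c ∈ CC n d) : pm n c = 1 := PN_le_pm (gam_le _ _ h)

theorem lim_of (hn : 0 < n) {E : Br n → Prop} (hk : ∀ b, E b → ∀ i j, (pm n b).SameCycle i j)
    {d : ℕ} (hd : ∀ b c, E b → c ∈ CC n d → E (b * c)) (hne : ∃ b, E b) {Γ : Type*} [Group Γ]
    [Finite Γ] (ρ : Br n →* Γ) [Fintype ((CC n d).map ρ)] (f : Γ → ℝ) (m : ℝ)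
    (hm : ∀ g, E g → ∑ φ : (CC n d).map ρ, f (ρ g * φ) = Fintype.card ((CC n d).map ρ) * m) :
    Lim E (fun b => f (ρ b)) m := by
  have : Nonempty (Fin n × Bool) := ⟨⟨0, hn⟩, true⟩
  obtain ⟨b, hb⟩ := hne
  obtain ⟨w, rfl⟩ := toBr_surj b
  refine walk ltr (flip n) ltr_flip (kes_CC n d) ρ (fun c hc => ?_) hd f m hm w hb n ?_
  · obtain ⟨u, rfl⟩ := toBr_surj c
    refine ⟨u, rfl, ?_⟩
    have := STABWaux.sign_perm u
    rw [← pm_toBr, pm_CC hc, map_one] at this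
    exact (neg_one_pow_eq_one_iff_even (by decide)).1 this.symm
  · have h1 : IsKnot w := fun i j => by rw [← pm_toBr]; exact hk _ hb i j
    have := STABWaux.len_par h1
    rw [Nat.even_iff]; omega

theorem tConn_orb {Q : Type} [Quandle Q] {x y : Fin (n + 1) → Q} (h : Orb x y) (hx : TConn x) :
    TConn y := (tConn_iff y).2 (((all_BRIDGE Q n x y).1 h).conn ((tConn_iff x).1 hx))

theorem tFull_orb {Q : Type} [Quandle Q] {x y : Fin (n + 1) → Q} (h : Orb x y) (hx : TFull x) :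
    TFull y := (tFull_iff y).2 (((all_BRIDGE Q n x y).1 h).full ((tFull_iff x).1 hx))

theorem orbit_sum {Ω : Type} [Finite Ω] (H : Subgroup (Equiv.Perm Ω)) [Fintype H] (p : Ω → Prop)
    (β : Equiv.Perm Ω) (hne : ∃ x, p x) (hH : ∀ h ∈ H, ∀ x, p x → p (h x))
    (hβ : ∀ x, p x → p (β⁻¹ x)) (ht : ∀ x y, p x → p y → ∃ h ∈ H, h x = y) :
    ∑ h : H, (Nat.card {x // p x ∧ (β * h.1) x = x} : ℝ) = Fintype.card H := by
  classical
  have := Fintype.ofFinite Ω
  obtain ⟨x0, h0⟩ := hne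
  let N : Ω → Ω → ℕ := fun x y => (univ.filter fun h : H => h.1 x = y).card
  have hl : ∀ x y, p x → N x y = N x0 y := fun x y hx => by
    obtain ⟨g, hg, rfl⟩ := ht x0 x h0 hx
    exact card_equiv (Equiv.mulRight (⟨g, hg⟩ : H)) fun a => by simp
  have hr : ∀ y y', p y → p y' → N x0 y = N x0 y' := fun y y' hy hy' => by
    obtain ⟨g, hg, rfl⟩ := ht y y' hy hy'
    exact card_equiv (Equiv.mulLeft (⟨g, hg⟩ : H)) fun a => by simp
  have hs : ∑ y with p y, N x0 y = Fintype.card H := by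
    rw [← card_univ, card_eq_sum_card_fiberwise (s := (univ : Finset H))
      (t := univ.filter p) (f := fun h => h.1 x0) fun h _ => by simpa using hH _ h.2 _ h0]
  rw [← hs, ← Nat.cast_sum]
  congr 1
  simp only [Nat.card_eq_fintype_card, Fintype.card_subtype, card_filter]
  rw [sum_comm, sum_filter]
  refine sum_congr rfl fun x _ => ?_
  split_ifs with hx
  · rw [hr x _ hx (hβ x hx), ← hl x _ hx]
    simp only [N, card_filter, hx, true_and, Equiv.Perm.mul_apply, Equiv.Perm.eq_inv_iff_eq]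
  · simp [hx]

theorem lim_orb (Q : Type) [Quandle Q] [Finite Q] : ∃ n0 : ℕ, ∀ n, n0 ≤ n →
    ∀ E : Br n → Prop, Ev n E → ∀ x0 : Fin (n + 1) → Q, TConn x0 →
      Lim E (fun b => Nat.card {x // Orb x0 x ∧ rho Q n b x = x}) 1 := by
  obtain ⟨n0, h⟩ := all_LC Q
  refine ⟨n0 + 1, fun n hn E hE x0 h0 => ?_⟩
  obtain ⟨d, hd⟩ := hE.inv
  have := Fintype.ofFinite ((CC n d).map (rho Q n))
  refine lim_of (by omega) hE.knot hd hE.ne (rho Q n)
    (fun γ => Nat.card {x // Orb x0 x ∧ γ x = x}) 1 fun g _ => ?_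
  rw [mul_one]
  refine orbit_sum _ _ _ ⟨x0, Orb.refl x0⟩ ?_ (fun x hx => hx.trans ⟨g⁻¹, by rw [map_inv]⟩) ?_
  · rintro _ ⟨c, -, rfl⟩ x hx
    exact hx.trans ⟨c, rfl⟩
  · intro x y hx hy
    obtain ⟨b, rfl⟩ := hx.symm.trans hy
    have h1 := h n (by omega) x (tConn_orb hx h0) d
      ((MulAction.stabilizer (Equiv.Perm (Fin (n + 1) → Q)) x).comap (rho Q n)) fun _ hb => hb
    have h2 : b ∈ CC n d ⊔ (MulAction.stabilizer (Equiv.Perm (Fin (n + 1) → Q)) x).comap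
        (rho Q n) := by rw [sup_comm, h1]; trivial
    obtain ⟨c, hc, e, he, rfl⟩ := Subgroup.mem_sup_of_normal_left.1 h2
    refine ⟨_, ⟨c, hc, rfl⟩, ?_⟩
    rw [rho_mul]
    exact congrArg _ (Eq.symm he)

/-- Counting fixed tuples along a system of representatives of the orbits. -/
theorem lim_reps (Q : Type) [Quandle Q] [Finite Q] : ∃ n0 : ℕ, ∀ n, n0 ≤ n →
    ∀ E : Br n → Prop, Ev n E → ∀ (J : Type) (r : J → Fin (n + 1) → Q)
      (p : (Fin (n + 1) → Q) → Prop), (∀ j, TConn (r j)) → (∀ i j, Orb (r i) (r j) → i = j) →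
      (∀ x, p x ↔ ∃ j, Orb (r j) x) → Finite J ∧
      Lim E (fun b => Nat.card {x // p x ∧ rho Q n b x = x}) (Nat.card J) := by
  obtain ⟨n0, h⟩ := lim_orb Q
  refine ⟨n0, fun n hn E hE J r p h1 h2 h3 => ?_⟩
  have : Finite J := Finite.of_injective r fun i j e => h2 i j (e ▸ Orb.refl _)
  refine ⟨this, ?_⟩
  have := Fintype.ofFinite J
  have h4 := Lim.sum univ fun j _ => h n hn E hE (r j) (h1 j)
  rw [sum_const, card_univ, nsmul_eq_mul, mul_one, ← Nat.card_eq_fintype_card] at h4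
  refine h4.congr fun b _ => ?_
  rw [← Nat.cast_sum, ← Nat.card_sigma]
  congr 1
  refine Nat.card_eq_of_bijective (fun z => ⟨z.2.1, (h3 _).2 ⟨z.1, z.2.2.1⟩, z.2.2.2⟩) ⟨?_, ?_⟩
  · rintro ⟨i, x, hx⟩ ⟨j, y, hy⟩ e
    obtain rfl : x = y := congrArg Subtype.val e
    obtain rfl := h2 i j (hx.1.trans hy.1.symm)
    rfl
  · rintro ⟨x, hx, e⟩
    obtain ⟨j, hj⟩ := (h3 x).1 hx
    exact ⟨⟨j, x, hj, e⟩, rfl⟩

/-! ### Knots -/

/-- The braids whose closure is a knot in `S`. -/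
def evOf (n : ℕ) (S : Set Knot) (b : Br n) : Prop :=
  ∃ (w : Word n) (h : IsKnot w), toBr w = b ∧ Knot.mk w h ∈ S

theorem ev_of {A : Type*} [AddCommGroup A] {v : Knot → A} (hv : Vassiliev v) {S : Set A}
    (hS : ∃ (w : Word n) (h : IsKnot w), v (Knot.mk w h) ∈ S) : Ev n (evOf n (v ⁻¹' S)) := by
  obtain ⟨d, hd⟩ := hv
  obtain ⟨B, _, v0, h0, e⟩ := small_val v hd
  refine ⟨?_, ⟨d, ?_⟩, ?_⟩
  · rintro _ ⟨w, h, rfl, -⟩
    rw [pm_toBr]; exact h
  · rintro _ c ⟨w, h, rfl, hw⟩ hc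
    obtain ⟨u, hu⟩ := toBr_surj (toBr w * c)
    obtain ⟨h', e'⟩ := all_ORD d n w u (by rwa [hu, inv_mul_cancel_left]) h
    exact ⟨u, h', hu, by rwa [Set.mem_preimage, e _ _ (e' B v0 h0)]⟩
  · obtain ⟨w, h, hw⟩ := hS
    exact ⟨_, w, h, rfl, hw⟩

theorem tot_eq (L : ℕ) (S : Set Knot) (F : Knot → ℝ) (g : Br n → ℝ)
    (h : ∀ (w : Word n) (hw : IsKnot w), F (Knot.mk w hw) = g (toBr w)) :
    tot n L (S.indicator F) = Lam ltr L fun b => ind (evOf n S) b * g b := by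
  refine sum_congr rfl fun w _ => ?_
  change _ = ind (evOf n S) (toBr (List.ofFn w)) * g (toBr (List.ofFn w))
  generalize List.ofFn w = u
  by_cases hu : IsKnot u
  · rw [val_mk _ hu]
    by_cases hS : Knot.mk u hu ∈ S
    · rw [Set.indicator_of_mem hS, ind_pos ⟨u, hu, rfl, hS⟩, one_mul, h]
    · rw [Set.indicator_of_notMem hS, ind_neg, zero_mul]
      rintro ⟨u', hu', e, h'⟩
      exact hS (all_BR n u' u e hu' hu ▸ h')
  · rw [val_not _ hu, ind_neg, zero_mul]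
    rintro ⟨u', hu', e, -⟩
    exact hu ((isKnot_congr (by rw [← pm_toBr, ← pm_toBr, e])).1 hu')

theorem mean_eq (L : ℕ) (S : Set Knot) (F : Knot → ℝ) (g : Br n → ℝ)
    (h : ∀ (w : Word n) (hw : IsKnot w), F (Knot.mk w hw) = g (toBr w)) :
    mean n L S F = bm L (evOf n S) g := by
  rw [mean, bm, tot_eq L S F g h, tot_eq L S 1 (fun _ => 1) fun _ _ => rfl]
  simp only [mul_one]

theorem hcol_eq (X : Type*) [Quandle X] (w : Word n) (hw : IsKnot w) :
    hcol X (Knot.mk w hw) = Nat.card {x // rho X n (toBr w) x = x} := by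
  simp only [hcol_mk, col, rho_toBr_fix]

end Pool.Agent.P.MP_cc10d1_gt.R
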