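import Pool.Agent.P.MP_cc10d1_gt.R.Core
import Pool.Agent.P.MP_cc10d1_gt.S.Env

/-! Orbits of generating tuples and the enveloping group. -/

set_option autoImplicit false

namespace Pool.Agent.P.MP_cc10d1_gt.R

open Finset Filter Topology T Rack Quandles

variable {Q : Type} [Quandle Q]

theorem cHom_gen : CHom (S.gen : Q → EnvelGroup Q) := fun x y => by
  rw [S.gen_act, inv_mul_cancel_right]

theorem conn_of_cn (h : Cn Q) : S.Conn Q := fun a b => by
  obtain ⟨φ, rfl⟩ := h a b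
  refine ⟨_, ?_, rfl⟩
  have : hol (id : Q → Q) φ ∈ (hol (id : Q → Q)).range := ⟨φ, rfl⟩
  rwa [hol, FreeGroup.range_lift_eq_closure] at this

theorem deg_pr (l : List Q) : S.deg (pr S.gen l) = Multiplicative.ofAdd (l.length : ℤ) := by
  induction l with
  | nil => rw [pr_nil, map_one]; rfl
  | cons a l ih => rw [pr_cons, map_mul, ih, S.deg_gen, ← ofAdd_add]; simp

theorem lift_pr {G : Type} [Group G] {e : Q → G} (he : CHom e) (l : List Q) :
    S.lift e he.conj (pr S.gen l) = pr e l := by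
  induction l with
  | nil => rw [pr_nil, map_one]; rfl
  | cons a l ih => rw [pr_cons, map_mul, ih, S.lift_gen, pr_cons]

theorem exists_full [Finite Q] (h : Cn Q) (y0 : Q) (m : ℕ)
    (hm : Nat.card Q * Nat.card (Equiv.Perm Q) ≤ m) (g : EnvelGroup Q)
    (hg : S.deg g = Multiplicative.ofAdd (m : ℤ)) :
    ∃ l : List Q, Full l ∧ l.length = m ∧ pr S.gen l = g := by
  obtain ⟨N, hN⟩ : ∃ N, N = Nat.card (Equiv.Perm Q) := ⟨_, rfl⟩
  have hN0 : 0 < N := hN ▸ Nat.card_pos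
  obtain ⟨z, hz⟩ : ∃ z, z = S.gen y0 ^ N := ⟨_, rfl⟩
  have hc : ∀ v, Commute z v := S.central_of_ea (by
    rw [hz, map_pow, S.ea_gen, hN]; exact sy_pow_card y0)
  have hy : ∀ y, S.gen y ^ N = z := fun y => by
    obtain ⟨u, -, rfl⟩ := S.exists_conj (conn_of_cn h) y0 y
    rw [← S.conj_gen, conj_pow, ← hz, ← (hc u).eq, mul_inv_cancel_right]
  have h1 : ∀ l : List Q, ∃ l', z ^ l.length = pr S.gen l * pr S.gen l' := by
    intro l
    induction l with
    | nil => exact ⟨[], by simp [pr_nil]⟩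
    | cons a l ih =>
      obtain ⟨l', e⟩ := ih
      refine ⟨l' ++ List.replicate (N - 1) a, ?_⟩
      rw [pr_append, pr_cons, pr_replicate, mul_assoc, ← mul_assoc (S.gen a), ← pow_succ',
        Nat.sub_add_cancel hN0, hy, (hc _).eq, ← mul_assoc, ← e, List.length_cons, pow_succ]
  have h2 : ∀ u : EnvelGroup Q, ∃ (l : List Q) (k : ℕ), u * z ^ k = pr S.gen l := by
    intro u
    induction u using S.env_ind with
    | h1 => exact ⟨[], 0, by simp [pr_nil]⟩
    | hg a => exact ⟨[a], 0, by simp [pr_cons, pr_nil]⟩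
    | hm u v hu hv =>
      obtain ⟨l, k, e⟩ := hu
      obtain ⟨l', k', e'⟩ := hv
      refine ⟨l' ++ l, k + k', ?_⟩
      rw [pr_append, ← e, ← e', pow_add, mul_assoc, mul_assoc, ← mul_assoc v, ← mul_assoc _ v,
        ((hc v).pow_left k).eq]
    | hi u hu =>
      obtain ⟨l, k, e⟩ := hu
      obtain ⟨l', e'⟩ := h1 l
      refine ⟨l' ++ List.replicate (N * k) y0, l.length, ?_⟩
      rw [pr_append, pr_replicate, pow_mul, ← hz, e', ← e, mul_assoc, inv_mul_cancel_left]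
  have h3 : ∀ (k : ℕ) (l : List Q), Full l → l.length = m + k * N →
      ∃ l0 : List Q, Full l0 ∧ l0.length = m ∧ pr S.gen l = pr S.gen l0 * z ^ k := by
    intro k
    induction k with
    | zero => exact fun l hl e => ⟨l, hl, by omega, by simp⟩
    | succ k ih =>
      intro l hl e
      rw [add_mul, one_mul] at e
      obtain ⟨l1, y, -, e1, e2, -⟩ := all_PIG Q N l (by rw [← hN] at hm; omega)
      have e3 := e1.length
      rw [List.length_append, List.length_replicate] at e3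
      obtain ⟨l0, a1, a2, a3⟩ := ih l1 (hl.mono e2.ge) (by omega)
      refine ⟨l0, a1, a2, ?_⟩
      rw [e1.pr cHom_gen, pr_append, pr_replicate, hy, a3, (hc _).eq, pow_succ, mul_assoc]
  obtain ⟨l, k, e⟩ := h2 g
  have := Fintype.ofFinite Q
  let a : List Q := (univ : Finset Q).toList
  obtain ⟨a', ea⟩ := h1 a
  have e4 : g * z ^ (k + a.length) = pr S.gen (a' ++ a ++ l) := by
    rw [pr_append, pr_append, ← ea, ← e, pow_add, mul_assoc]
  have hf : Full (a' ++ a ++ l) := fun x y => by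
    obtain ⟨u, hu, e⟩ := conn_of_cn h x y
    refine ⟨u, (Subgroup.closure_le _).2 ?_ hu, e⟩
    rintro _ ⟨b, rfl⟩
    exact sy_mem_gp (by simp [a])
  have e5 := congrArg S.deg e4
  rw [deg_pr, map_mul, hg, hz, ← pow_mul, map_pow, S.deg_gen, ← ofAdd_nsmul, ← ofAdd_add,
    EmbeddingLike.apply_eq_iff_eq, nsmul_one, mul_comm N] at e5
  obtain ⟨l0, a1, a2, a3⟩ := h3 _ _ hf (by exact_mod_cast e5.symm)
  exact ⟨l0, a1, a2, mul_right_cancel (a3.symm.trans e4.symm)⟩

theorem lim_full (Q : Type) [Quandle Q] [Finite Q] : ∃ n0 : ℕ, ∀ n, n0 ≤ n →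
    ∀ E : Br n → Prop, Ev n E → Cn Q → Nonempty Q → Finite (commutator (EnvelGroup Q)) ∧
      Lim E (fun b => Nat.card {x // TFull x ∧ rho Q n b x = x})
        (Nat.card (commutator (EnvelGroup Q))) := by
  obtain ⟨n0, h0⟩ := lim_reps Q
  obtain ⟨n1, h1⟩ := all_CP Q
  refine ⟨n0 + n1 + Nat.card Q * Nat.card (Equiv.Perm Q), fun n hn E hE h ⟨y0⟩ => ?_⟩
  have hd : S.deg (S.gen y0 ^ (n + 1)) = Multiplicative.ofAdd ((n + 1 : ℕ) : ℤ) := by
    rw [map_pow, S.deg_gen, ← ofAdd_nsmul, nsmul_one]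
  have h2 : ∀ j : commutator (EnvelGroup Q), ∃ x : Fin (n + 1) → Q, TFull x ∧
      pr S.gen (List.ofFn x) = j * S.gen y0 ^ (n + 1) := fun j => by
    obtain ⟨l, a1, a2, a3⟩ := exists_full h y0 (n + 1) (by omega) (j * S.gen y0 ^ (n + 1))
      (by rw [map_mul, S.deg_commutator j.2, one_mul, hd])
    obtain ⟨x, rfl⟩ : ∃ x : Fin (n + 1) → Q, List.ofFn x = l := by
      generalize n + 1 = m at a2
      subst a2
      exact ⟨l.get, List.ofFn_get l⟩
    exact ⟨x, (tFull_iff x).2 a1, a3⟩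
  choose r r1 r2 using h2
  refine h0 n (by omega) E hE _ r TFull (fun j a b => r1 j _ _) (fun i j e => ?_)
    fun x => ⟨fun hx => ?_, fun ⟨j, e⟩ => tFull_orb e (r1 j)⟩
  · have := ((all_BRIDGE Q n _ _).1 e).pr cHom_gen
    rw [r2, r2] at this
    exact Subtype.ext (mul_right_cancel this)
  · refine ⟨⟨pr S.gen (List.ofFn x) * (S.gen y0 ^ (n + 1))⁻¹, S.ker_deg (conn_of_cn h) y0 ?_⟩,
      (all_BRIDGE Q n _ _).2 (h1 _ _ ((tFull_iff _).1 (r1 _)) ((tFull_iff _).1 hx) ?_ ?_ ?_)⟩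
    · rw [map_mul, map_inv, hd, deg_pr, List.length_ofFn, mul_inv_cancel]
    · rw [List.length_ofFn]; omega
    · rw [List.length_ofFn, List.length_ofFn]
    · intro G _ e he
      rw [← lift_pr he, ← lift_pr he, r2, inv_mul_cancel_right]

/-! ### All colourings -/

variable {X : Type} [Quandle X]

theorem cn_sub (Y : CS X) : Cn (Sub Y) := by
  intro a b
  obtain ⟨g, hg, e⟩ := Y.2.2.2 a.1 a.2 b.1 b.2
  have : ∃ φ, ∀ c : Sub Y, (hol (id : Sub Y → Sub Y) φ c).1 = g c.1 := by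
    clear e
    induction hg using Subgroup.closure_induction with
    | mem g hg =>
      obtain ⟨y, hy, rfl⟩ := hg
      exact ⟨FreeGroup.of ⟨y, hy⟩, fun c => by rw [hol_of]; rfl⟩
    | one => exact ⟨1, fun c => by rw [map_one]; rfl⟩
    | mul g g' _ _ h h' =>
      obtain ⟨φ, h⟩ := h
      obtain ⟨φ', h'⟩ := h'
      exact ⟨φ * φ', fun c => by rw [map_mul, Equiv.Perm.mul_apply, h, h']; rfl⟩
    | inv g _ h =>
      obtain ⟨φ, h⟩ := h
      refine ⟨φ⁻¹, fun c => ?_⟩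
      rw [Equiv.Perm.eq_inv_iff_eq, ← h, ← Equiv.Perm.mul_apply, ← map_mul, mul_inv_cancel, map_one]
      rfl
  obtain ⟨φ, h⟩ := this
  exact ⟨φ, Subtype.ext ((h a).trans e)⟩

theorem card_fix [Finite X] {n : ℕ} (b : Br n) (hb : ∀ i j, (pm n b).SameCycle i j) :
    Nat.card {x // rho X n b x = x} =
      Nat.card (Σ Y : CS X, {z // TFull z ∧ rho (Sub Y) n b z = z}) := by
  have key : ∀ (Y : CS X) (z : Fin (n + 1) → Sub Y), TFull z → ∀ a, a ∈ Y.1 ↔
      ∃ φ, hol (fun i => (z i).1) φ (z 0).1 = a := fun Y z hz a =>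
    ⟨fun ha => (hz (z 0) ⟨a, ha⟩).imp fun φ e =>
        (hol_map (isHom_val _) z φ (z 0)).trans (congrArg Subtype.val e),
      fun ⟨φ, e⟩ => e ▸ (hol_map (isHom_val _) z φ (z 0)).symm ▸ (hol z φ (z 0)).2⟩
  symm
  refine Nat.card_eq_of_bijective (fun z => ⟨fun i => (z.2.1 i).1,
    (rho_map (isHom_val _) b z.2.1).trans (by rw [z.2.2.2]; rfl)⟩) ⟨?_, ?_⟩
  · rintro ⟨Y, z, hz⟩ ⟨Y', z', hz'⟩ e
    have e1 : (fun i => (z i).1) = fun i => (z' i).1 := congrArg Subtype.val e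
    obtain rfl : Y = Y' := Subtype.ext (Set.ext fun a => by
      rw [key Y z hz.1, key Y' z' hz'.1, e1, congrFun e1 0])
    obtain rfl : z = z' := funext fun i => Subtype.ext (congrFun e1 i)
    rfl
  · rintro ⟨x, hx⟩
    obtain ⟨O, z, h1, h2, -⟩ := all_SUB X n x (all_FIXC X n b x hb hx).1
    obtain rfl : (fun i => (z i).1) = x := funext h1
    refine ⟨⟨⟨O.1, ⟨_, (z 0).2⟩, O.2, fun a ha c hc => ?_⟩, z, h2, ?_⟩, rfl⟩
    · obtain ⟨φ, e⟩ := h2 ⟨a, ha⟩ ⟨c, hc⟩
      refine ⟨_, ?_, (hol_map (isHom_val O) z φ ⟨a, ha⟩).trans (congrArg Subtype.val e)⟩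
      have : hol ((fun a : SubQ O => a.1) ∘ z) φ ∈ (hol ((fun a : SubQ O => a.1) ∘ z)).range :=
        ⟨φ, rfl⟩
      rw [hol, FreeGroup.range_lift_eq_closure] at this
      refine Subgroup.closure_mono ?_ this
      rintro _ ⟨i, rfl⟩
      exact ⟨_, (z i).2, rfl⟩
    · funext i
      exact Subtype.ext (congrFun ((rho_map (isHom_val O) b z).symm.trans hx) i)

theorem lim_all (X : Type) [Quandle X] [Finite X] : ∃ n0 : ℕ, ∀ n, n0 ≤ n →
    ∀ E : Br n → Prop, Ev n E → Lim E (fun b => Nat.card {x // rho X n b x = x})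
      (Nat.card (Σ Y : CS X, commutator (EnvelGroup (Sub Y)))) := by
  have : Finite (CS X) := inferInstanceAs (Finite {Y : Set X // _})
  have := Fintype.ofFinite (CS X)
  choose n0 h using fun Y : CS X => lim_full (Sub Y)
  refine ⟨univ.sup n0, fun n hn E hE => ?_⟩
  have h1 := fun Y : CS X => h Y n ((le_sup (mem_univ Y)).trans hn) E hE (cn_sub Y)
    (Y.2.1.elim fun a ha => ⟨⟨a, ha⟩⟩)
  have := fun Y => (h1 Y).1
  rw [Nat.card_sigma, Nat.cast_sum]
  refine (Lim.sum univ fun Y _ => (h1 Y).2).congr fun b hb => ?_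
  rw [card_fix b (hE.knot b hb), Nat.card_sigma, Nat.cast_sum]

end Pool.Agent.P.MP_cc10d1_gt.R
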