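import Pool.Agent.P.MP_cc10d1_gt.R.Clau

/-! The number of twisted symmetric forms over a finite field. -/

set_option autoImplicit false

namespace Pool.Agent.P.MP_cc10d1_gt.R

open Finset

variable {F : Type} [Field F] (a : Fˣ)

/-- Multiplication by a unit on a vector space. -/
def sm (M : Type) [AddCommGroup M] [Module F M] : M ≃+ M := DistribMulAction.toAddEquiv M a

theorem sm_apply {M : Type} [AddCommGroup M] [Module F M] (x : M) : sm a M x = (a : F) • x := rfl

theorem forms_adj {M : Type} [AddCommGroup M] [Module F M] (B : Forms (sm a M)) (p : F × F)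
    (hp : p ∈ Subring.closure {((a : F), ((a⁻¹ : Fˣ) : F))}) :
    ∀ x y, B.1 (p.1 • x) y = B.1 x (p.2 • y) := by
  induction hp using Subring.closure_induction with
  | mem p hp =>
    obtain rfl := hp
    intro x y
    rw [B.2 x, ← sm_apply, B.2 (_ • y), sm_apply, sm_apply, smul_smul, Units.mul_inv, one_smul]
  | zero => simp
  | one => simp
  | add p q _ _ h h' => intro x y; simp [add_smul, h, h']
  | neg p _ h => intro x y; simp [h]
  | mul p q _ _ h h' =>
    intro x y
    rw [Prod.fst_mul, Prod.snd_mul, mul_smul, h, h', smul_smul, mul_comm]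

theorem card_forms_gen [Finite F] (hg : Subring.closure {(a : F)} = ⊤)
    (h : ¬ ∃ σ : F ≃+* F, σ a = ((a⁻¹ : Fˣ) : F)) (M : Type) [AddCommGroup M] [Module F M] :
    Nat.card (Forms (sm a M)) = 1 := by
  let R := Subring.closure {((a : F), ((a⁻¹ : Fˣ) : F))}
  let f : R →+* F := (RingHom.fst F F).comp R.subtype
  have hs : Function.Surjective f := fun c => by
    have : c ∈ R.map (RingHom.fst F F) := by
      rw [RingHom.map_closure, Set.image_singleton]
      exact hg ▸ Subring.mem_top c
    obtain ⟨p, hp, rfl⟩ := this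
    exact ⟨⟨p, hp⟩, rfl⟩
  have hi : ¬ Function.Injective f := fun hi => by
    let e := RingEquiv.ofBijective f ⟨hi, hs⟩
    let σ : F →+* F := ((RingHom.snd F F).comp R.subtype).comp e.symm
    refine h ⟨RingEquiv.ofBijective σ (Finite.injective_iff_bijective.1 σ.injective), ?_⟩
    have : e.symm a = ⟨_, Subring.subset_closure rfl⟩ := by rw [RingEquiv.symm_apply_eq]; rfl
    exact congrArg (fun p : R => p.1.2) this
  rw [injective_iff_map_eq_zero, not_forall] at hi
  obtain ⟨⟨p, hp⟩, h1⟩ := hi
  obtain ⟨h1, h2⟩ := Classical.not_imp.1 h1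
  have h3 : p.2 ≠ 0 := fun e => h2 (Subtype.ext (Prod.ext h1 e))
  have h4 : ∀ B : Forms (sm a M), B.1 = 0 := fun B => by
    ext x y
    have := forms_adj a B p hp x (p.2⁻¹ • y)
    rw [smul_inv_smul₀ h3, show p.1 = 0 from h1, zero_smul, map_zero] at this
    exact congrArg _ (congrArg _ this.symm)
  exact Nat.card_eq_one_iff_exists.2 ⟨⟨0, fun _ _ => rfl⟩, fun B => Subtype.ext (h4 B)⟩

theorem card_sym {T : Type} [Finite T] (ι : T → T) (h : ∀ t, ι (ι t) = t) (j : ℕ) :
    Nat.card {l : Fin j → Fin j → T // ∀ i k, l i k = ι (l k i)} =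
      Nat.card T ^ j.choose 2 * Nat.card {t // t = ι t} ^ j := by
  induction j with
  | zero => simp
  | succ j ih =>
    have : Nat.card {l : Fin (j + 1) → Fin (j + 1) → T // ∀ i k, l i k = ι (l k i)} =
        Nat.card ({t // t = ι t} × (Fin j → T) ×
          {l : Fin j → Fin j → T // ∀ i k, l i k = ι (l k i)}) := by
      refine Nat.card_eq_of_bijective (fun l => (⟨l.1 0 0, l.2 0 0⟩, fun k => l.1 0 k.succ,
        ⟨fun i k => l.1 i.succ k.succ, fun i k => l.2 _ _⟩)) ⟨?_, ?_⟩
      · intro l l' e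
        simp only [Prod.mk.injEq, Subtype.mk.injEq, funext_iff] at e
        refine Subtype.ext (funext fun i => funext fun k => ?_)
        induction i using Fin.cases with
        | zero =>
          induction k using Fin.cases with
          | zero => exact e.1
          | succ k => exact e.2.1 k
        | succ i =>
          induction k using Fin.cases with
          | zero => rw [l.2, l'.2, e.2.1]
          | succ k => exact e.2.2 i k
      · rintro ⟨c, r, l⟩
        refine ⟨⟨Fin.cons (Fin.cons c.1 r) fun i => Fin.cons (ι (r i)) (l.1 i), fun i k => ?_⟩, rfl⟩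
        induction i using Fin.cases with
        | zero =>
          induction k using Fin.cases with
          | zero => exact c.2
          | succ k => exact (h _).symm
        | succ i =>
          induction k using Fin.cases with
          | zero => rfl
          | succ k => exact l.2 i k
    rw [this, Nat.card_prod, Nat.card_prod, ih, Nat.card_fun, Nat.card_eq_fintype_card (α := Fin j),
      Fintype.card_fin, Nat.choose_succ_succ' j 1, Nat.choose_one_right]
    ring

theorem sigma_sigma (hg : Subring.closure {(a : F)} = ⊤) {σ : F ≃+* F}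
    (h : σ a = ((a⁻¹ : Fˣ) : F)) (z : F) : σ (σ z) = z := by
  have : (σ : F →+* F).comp σ = RingHom.id F := RingHom.eq_of_eqOn_set_dense hg (by
    rintro _ rfl
    change σ (σ a) = a
    rw [h, Units.val_inv_eq_inv_val, map_inv₀, h, Units.val_inv_eq_inv_val, inv_inv])
  exact DFunLike.congr_fun this z

theorem card_forms_sd [Finite F] (hg : Subring.closure {(a : F)} = ⊤) {σ : F ≃+* F}
    (h : σ a = ((a⁻¹ : Fˣ) : F)) (j : ℕ) : Nat.card (Forms (sm a (Fin j → F))) =
      Nat.card F ^ j.choose 2 * Nat.card {z : F // z = σ (a * z)} ^ j := by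
  have hσ := sigma_sigma a hg h
  let τ : F →+ F := (σ : F →+ F).comp (AddMonoidHom.mulLeft (a : F))
  have τa : ∀ z, τ z = σ (a * z) := fun _ => rfl
  have hτ : ∀ z, τ (τ z) = z := fun z => by
    rw [τa, τa, map_mul, hσ, h, Units.inv_mul_cancel_left]
  have : Finite (F →+ U) := Nat.finite_of_card_ne_zero (by rw [card_hom]; exact Nat.card_pos.ne')
  have h1 := card_sym (fun l : F →+ U => l.comp τ) (fun l => AddMonoidHom.ext fun z =>
    congrArg l (hτ z)) j
  have h2 : Nat.card {l : F →+ U // l = l.comp τ} = Nat.card {z : F // z = σ (a * z)} := by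
    let ψ : F →+ F := AddMonoidHom.id F - τ
    have e1 : Nat.card (F ⧸ ψ.range →+ U) = Nat.card {l : F →+ U // l = l.comp τ} := by
      refine Nat.card_eq_of_bijective (fun m => ⟨m.comp (QuotientAddGroup.mk' _),
        AddMonoidHom.ext fun z => congrArg m (QuotientAddGroup.eq_iff_sub_mem.2 ⟨z, rfl⟩)⟩) ⟨?_, ?_⟩
      · intro m m' e
        exact QuotientAddGroup.addMonoidHom_ext _ (congrArg Subtype.val e)
      · rintro ⟨l, hl⟩
        refine ⟨QuotientAddGroup.lift _ l ?_, rfl⟩
        rintro _ ⟨z, rfl⟩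
        exact (map_sub l z (τ z)).trans (sub_eq_zero.2 (DFunLike.congr_fun hl z))
    have e2 := AddSubgroup.card_eq_card_quotient_mul_card_addSubgroup ψ.range
    have e3 := AddSubgroup.card_eq_card_quotient_mul_card_addSubgroup ψ.ker
    rw [Nat.card_congr (QuotientAddGroup.quotientKerEquivRange ψ).toEquiv, e2, mul_comm] at e3
    rw [← e1, card_hom, Nat.eq_of_mul_eq_mul_left Nat.card_pos e3]
    exact Nat.card_congr (Equiv.subtypeEquivRight fun z => sub_eq_zero)
  rw [← h2, ← card_hom F, ← h1]
  have ad : ∀ (B : Forms (sm a (Fin j → F))) (c : F) (x y : Fin j → F),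
      B.1 (c • x) y = B.1 x (σ c • y) := fun B c => by
    have : (c, σ c) ∈ (⊤ : Subring F).map ((RingHom.id F).prod σ) := ⟨c, trivial, rfl⟩
    rw [← hg, RingHom.map_closure, Set.image_singleton] at this
    exact forms_adj a B (c, σ c) (h ▸ this)
  have sg : ∀ (i : Fin j) (z : F), (Pi.single i z : Fin j → F) = z • Pi.single i 1 := fun i z => by
    rw [← Pi.single_smul, smul_eq_mul, mul_one]
  refine Nat.card_eq_of_bijective (fun B => ⟨fun i k =>
    (B.1.flip (Pi.single k 1)).comp (AddMonoidHom.single (fun _ => F) i), fun i k =>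
      AddMonoidHom.ext fun z => ?_⟩) ⟨?_, ?_⟩
  · change B.1 (Pi.single i z) (Pi.single k 1) = B.1 (Pi.single k (σ (a * z))) (Pi.single i 1)
    rw [B.2, sm_apply, sg i z, sg k (σ _), ad, hσ, smul_smul]
  · intro B B' e
    have e1 : ∀ i k z, B.1 (Pi.single i z) (Pi.single k 1) = B'.1 (Pi.single i z) (Pi.single k 1) :=
      fun i k z => DFunLike.congr_fun (congrFun (congrFun (congrArg Subtype.val e) i) k) z
    refine Subtype.ext (AddMonoidHom.functions_ext _ _ _ fun i z =>
      AddMonoidHom.functions_ext _ _ _ fun k w => ?_)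
    rw [sg k w, ← hσ w, ← ad, ← ad, ← Pi.single_smul, e1]
  · rintro ⟨l, hl⟩
    refine ⟨⟨AddMonoidHom.mk' (fun x => AddMonoidHom.mk'
      (fun y => ∑ i, ∑ k, l i k (x i * σ (y k))) fun y y' => by
        simp only [Pi.add_apply, map_add, mul_add, sum_add_distrib]) fun x x' =>
      AddMonoidHom.ext fun y => by
        simp only [AddMonoidHom.mk'_apply, AddMonoidHom.add_apply, Pi.add_apply, map_add, add_mul,
          sum_add_distrib], fun x y => ?_⟩, ?_⟩
    · simp only [AddMonoidHom.mk'_apply]
      rw [sum_comm]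
      refine sum_congr rfl fun i _ => sum_congr rfl fun k _ => ?_
      rw [hl, AddMonoidHom.comp_apply, τa, ← mul_assoc, map_mul, hσ, mul_comm]
      rfl
    · refine Subtype.ext (funext fun i => funext fun k => AddMonoidHom.ext fun z => ?_)
      change ∑ i', ∑ k', l i' k' ((Pi.single i z : Fin j → F) i' *
        σ ((Pi.single k 1 : Fin j → F) k')) = l i k z
      rw [sum_eq_single i, sum_eq_single k]
      · simp
      · intro b _ hb; simp [hb]
      · simp
      · intro b _ hb; simp [hb]
      · simp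

theorem card_fix_neg (h1 : (a : F) ≠ 1) (hg : Subring.closure {(a : F)} = ⊤) (σ : F ≃+* F)
    (ha : (a : F) = -1) :
    Nat.card {z : F // z = σ (a * z)} = 1 := by
  have e : (σ : F →+* F) = RingHom.id F := RingHom.eq_of_eqOn_set_dense hg (by
    rintro _ rfl
    change σ a = a
    rw [ha, map_neg, map_one])
  refine Nat.card_eq_one_iff_exists.2 ⟨⟨0, by simp⟩, fun z => Subtype.ext ?_⟩
  have h2 : z.1 = a * z.1 := z.2.trans (DFunLike.congr_fun e _)
  have h3 : (1 - a : F) * z.1 = 0 := by rw [sub_mul, one_mul, ← h2, sub_self]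
  exact (mul_eq_zero.1 h3).resolve_left (sub_ne_zero.2 h1.symm)

theorem card_fix_sq [Finite F] (h1 : (a : F) ≠ 1) (hg : Subring.closure {(a : F)} = ⊤)
    {σ : F ≃+* F} (h : σ a = ((a⁻¹ : Fˣ) : F)) (ha : (a : F) ≠ -1) :
    Nat.card {z : F // z = σ (a * z)} ^ 2 = Nat.card F := by
  have hσ := sigma_sigma a hg h
  have hδ : (a : F) - σ a ≠ 0 := fun e => by
    have h2 : (a : F) * a = 1 := by
      nth_rewrite 2 [sub_eq_zero.1 e]
      rw [h, Units.mul_inv]
    rcases mul_self_eq_one_iff.1 h2 with h3 | h3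
    · exact h1 h3
    · exact ha h3
  have haa : σ a * a = 1 := by rw [h, Units.inv_mul]
  rw [sq, ← Nat.card_prod]
  refine Nat.card_eq_of_bijective (fun p => p.1.1 + a * p.2.1) ⟨?_, fun y => ?_⟩
  · rintro ⟨⟨u, hu⟩, ⟨v, hv⟩⟩ ⟨⟨u', hu'⟩, ⟨v', hv'⟩⟩ e
    dsimp only at e
    have e1 := congrArg (fun t => σ (a * t)) e
    simp only [mul_add, map_add] at e1
    rw [map_mul σ _ (_ * v), map_mul σ _ (_ * v'), ← hu, ← hu', ← hv, ← hv'] at e1
    have e2 : v = v' := mul_left_cancel₀ hδ (by linear_combination e - e1)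
    subst e2
    obtain rfl : u = u' := add_right_cancel e
    rfl
  · have hv : (y - σ (a * y)) / (a - σ a) = σ (a * ((y - σ (a * y)) / (a - σ a))) := by
      rw [← mul_div_assoc, map_div₀, mul_sub, map_sub, map_sub, map_mul σ _ (σ _), hσ, hσ,
        ← mul_assoc, haa, one_mul, ← neg_sub y, ← neg_sub (a : F), neg_div_neg_eq]
    obtain ⟨v, e⟩ : ∃ v, v = (y - σ (a * y)) / (a - σ a) := ⟨_, rfl⟩
    rw [← e] at hv
    refine ⟨(⟨y - a * v, ?_⟩, ⟨v, hv⟩), sub_add_cancel _ _⟩
    rw [mul_sub, map_sub, map_mul σ _ (_ * v), ← hv]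
    rw [eq_div_iff hδ] at e
    linear_combination -e

end Pool.Agent.P.MP_cc10d1_gt.R
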