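import Pool.Agent.P.MP_cc10d1_gt.R.LawDefs

/-! Truncated inversion formulas and two identities of Euler. -/

set_option autoImplicit false

namespace Pool.Agent.P.MP_cc10d1_gt.R

open Finset Filter Topology

variable {q : ℝ}

/-- The number of injective maps. -/
noncomputable def AA (q : ℝ) (j : ℕ) (x : ℝ) : ℝ := ∏ i ∈ range j, (x - q ^ i)

/-- The factorial. -/
noncomputable def fa (q : ℝ) (j : ℕ) : ℝ := ∏ i ∈ range j, (q ^ (i + 1) - 1)

theorem fa_pos (hq : 1 < q) (j : ℕ) : 0 < fa q j :=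
  prod_pos fun i _ => sub_pos.2 (one_lt_pow₀ hq i.succ_ne_zero)

theorem fa_succ (j : ℕ) : fa q (j + 1) = fa q j * (q ^ (j + 1) - 1) := prod_range_succ _ _

theorem choose_succ (j : ℕ) : (j + 1).choose 2 = j.choose 2 + j := by
  rw [Nat.choose_succ_succ' j 1, Nat.choose_one_right, add_comm]

theorem choose_add (k i : ℕ) : (k + i).choose 2 = k.choose 2 + i.choose 2 + k * i := by
  induction i with
  | zero => simp
  | succ i ih => rw [← add_assoc, choose_succ, choose_succ, ih]; ring

theorem AA_self (k : ℕ) : AA q k (q ^ k) = q ^ k.choose 2 * fa q k := by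
  induction k with
  | zero => simp [AA, fa]
  | succ k ih =>
    rw [AA] at ih
    rw [AA, prod_range_succ', fa_succ, choose_succ]
    simp only [pow_succ' q, ← mul_sub, prod_mul_distrib, prod_const, card_range, ih]
    ring

theorem AA_add (hq : 1 < q) (k i : ℕ) (x : ℝ) :
    AA q (k + i) x = AA q k x * (q ^ (k * i) * AA q i (x / q ^ k)) := by
  rw [AA, prod_range_add, AA, AA, pow_mul, ← card_range i, ← prod_const, card_range,
    ← prod_mul_distrib]
  congr 1
  refine prod_congr rfl fun m _ => ?_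
  have : q ^ k ≠ 0 := by positivity
  rw [pow_add]; field_simp

theorem trunc (hq : 1 < q) (I : ℕ) (y : ℝ) : ∑ i ∈ range (I + 1), (-1) ^ i * AA q i y / fa q i =
    (-1) ^ I * (∏ i ∈ range I, (y - q ^ (i + 1))) / fa q I := by
  induction I with
  | zero => simp [AA]
  | succ I ih =>
    have h1 := (fa_pos hq I).ne'
    have h2 : q ^ (I + 1) - 1 ≠ 0 := (sub_pos.2 (one_lt_pow₀ hq I.succ_ne_zero)).ne'
    rw [sum_range_succ, ih, AA, prod_range_succ', prod_range_succ, fa_succ]
    field_simp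
    ring

theorem prod_nonneg' (hq : 1 < q) (j N : ℕ) (f : ℕ → ℕ) (h0 : f 0 ≤ N)
    (hf : ∀ i, f (i + 1) = f i + 1) : 0 ≤ ∏ i ∈ range j, (q ^ N - q ^ f i) := by
  have e : ∀ i, f i = f 0 + i := fun i => by
    induction i with
    | zero => rfl
    | succ i ih => rw [hf, ih, add_assoc]
  by_cases h : N - f 0 < j
  · exact (prod_eq_zero (mem_range.2 h) (by rw [e, Nat.add_sub_cancel' h0, sub_self])).ge
  · exact prod_nonneg fun i hi => sub_nonneg.2 (pow_le_pow_right₀ hq.le (by
      have := mem_range.1 hi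
      rw [e]; omega))

/-- The weights of the inversion formula. -/
noncomputable def ww (q : ℝ) (k i : ℕ) : ℝ :=
  (-1) ^ i / (fa q i * q ^ (k * i) * (q ^ k.choose 2 * fa q k))

theorem bonf (hq : 1 < q) (k I K : ℕ) : 0 ≤ (-1) ^ I *
    (∑ i ∈ range (I + 1), ww q k i * AA q (k + i) (q ^ K) - if K = k then 1 else 0) := by
  have h0 : 0 < q ^ k.choose 2 * fa q k := mul_pos (by positivity) (fa_pos hq k)
  have e : ∑ i ∈ range (I + 1), ww q k i * AA q (k + i) (q ^ K) =
      AA q k (q ^ K) / (q ^ k.choose 2 * fa q k) *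
        ((-1) ^ I * (∏ i ∈ range I, (q ^ K / q ^ k - q ^ (i + 1))) / fa q I) := by
    rw [← trunc hq, mul_sum]
    refine sum_congr rfl fun i _ => ?_
    have := (fa_pos hq i).ne'
    have := (fa_pos hq k).ne'
    rw [AA_add hq, ww]
    field_simp
  rw [e]
  rcases lt_trichotomy K k with h | rfl | h
  · rw [if_neg h.ne, AA, prod_eq_zero (mem_range.2 h) (sub_self _)]
    simp
  · have e2 : ∏ i ∈ range I, (1 - q ^ (i + 1)) = (-1) ^ I * fa q I := by
      rw [fa, ← card_range I, ← prod_const, card_range, ← prod_mul_distrib]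
      exact prod_congr rfl fun _ _ => by ring
    rw [if_pos rfl, AA_self, div_self h0.ne', div_self (by positivity), e2, ← mul_assoc (_ ^ I),
      ← mul_pow, neg_mul_neg, one_mul, one_mul, one_pow, one_mul, div_self (fa_pos hq I).ne',
      sub_self, mul_zero]
  · rw [if_neg h.ne', sub_zero, mul_left_comm, ← mul_div_assoc, ← mul_assoc (_ ^ I), ← mul_pow,
      neg_mul_neg, one_mul, one_pow, one_mul, div_eq_mul_inv (q ^ K),
      ← pow_sub₀ q (by positivity) h.le]
    exact mul_nonneg (div_nonneg (prod_nonneg' hq k K id (Nat.zero_le _) fun _ => rfl) h0.le)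
      (div_nonneg (prod_nonneg' hq I (K - k) (· + 1) (by omega) fun _ => rfl) (fa_pos hq I).le)

/-! ### Power series -/

theorem hs_congr {f g : ℕ → ℝ} {a : ℝ} (h : HasSum f a) (e : ∀ i, g i = f i) : HasSum g a := by
  rwa [show g = f from funext e]

theorem ser_summ {c : ℕ → ℝ} {z w : ℝ} (h : Summable fun i => |c i| * z ^ i) (hw : |w| ≤ z) :
    Summable fun i => c i * w ^ i :=
  h.of_norm_bounded fun i => by
    rw [Real.norm_eq_abs, abs_mul, abs_pow]
    gcongr

theorem ser_lim {c : ℕ → ℝ} {z t : ℝ} (h : Summable fun i => |c i| * z ^ i) (hz : 0 ≤ z)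
    (h0 : 0 ≤ t) (h1 : t < 1) :
    Tendsto (fun N : ℕ => ∑' i, c i * (t ^ N * z) ^ i) atTop (𝓝 (c 0)) := by
  have ht := (tendsto_pow_atTop_nhds_zero_of_lt_one h0 h1).mul_const z
  rw [zero_mul] at ht
  have := tendsto_tsum_of_dominated_convergence (𝓕 := atTop)
    (f := fun (N : ℕ) i => c i * (t ^ N * z) ^ i) (g := fun i => c i * 0 ^ i) h
    (fun i => (ht.pow i).const_mul _) (Eventually.of_forall fun N i => by
      rw [Real.norm_eq_abs, abs_mul, abs_pow, abs_of_nonneg (show 0 ≤ t ^ N * z by positivity)]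
      gcongr
      exact mul_le_of_le_one_left hz (pow_le_one₀ h0 h1.le))
  rwa [tsum_eq_single 0 fun i hi => by simp [hi], pow_zero, mul_one] at this

theorem summ_S (hq : 1 < q) {z : ℝ} (h0 : 0 ≤ z) (hz : z < q) :
    Summable fun i => q ^ i.choose 2 / fa q i * z ^ i := by
  have hq0 : 0 < q := by linarith
  obtain ⟨r, hr1, hr⟩ := exists_between ((div_lt_one hq0).2 hz)
  have hr0 : 0 < r * q - z := by rw [div_lt_iff₀ hq0] at hr1; linarith
  refine summable_of_ratio_norm_eventually_le hr ?_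
  filter_upwards [(tendsto_pow_atTop_atTop_of_one_lt hq).eventually_ge_atTop (r / (r * q - z))]
    with i hi
  have h1 := fa_pos hq i
  have h2 : 0 < q ^ (i + 1) - 1 := sub_pos.2 (one_lt_pow₀ hq i.succ_ne_zero)
  have h3 := fa_pos hq (i + 1)
  rw [Real.norm_of_nonneg (by positivity), Real.norm_of_nonneg (by positivity), fa_succ,
    choose_succ]
  rw [div_le_iff₀ hr0] at hi
  have h4 : q ^ i * z / (q ^ (i + 1) - 1) ≤ r := by
    rw [div_le_iff₀ h2, pow_succ]; nlinarith
  calc _ = q ^ i * z / (q ^ (i + 1) - 1) * (q ^ i.choose 2 / fa q i * z ^ i) := by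
        rw [pow_add, pow_succ z]; field_simp
    _ ≤ _ := by gcongr

theorem summ_geo (hq : 1 < q) (z : ℝ) (k : ℕ) : Summable fun i : ℕ => z / q ^ (k + i + 1) := by
  have := (summable_geometric_of_lt_one (r := q⁻¹) (by positivity)
    (inv_lt_one_of_one_lt₀ hq)).mul_left (z / q ^ (k + 1))
  refine this.congr fun i => ?_
  rw [inv_pow, add_right_comm, pow_add _ _ i]; field_simp

theorem euler_S (hq : 1 < q) {z : ℝ} (h0 : 0 ≤ z) (hz : z < q) :
    HasSum (fun i => (-1) ^ i * (q ^ i.choose 2 / fa q i) * z ^ i)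
      (∏' i : ℕ, (1 + z / q ^ (i + 1)))⁻¹ := by
  let c : ℕ → ℝ := fun i => (-1) ^ i * (q ^ i.choose 2 / fa q i)
  have hs : Summable fun i => |c i| * z ^ i := (summ_S hq h0 hz).congr fun i => by
    have := fa_pos hq i
    simp only [c, abs_mul, abs_pow, abs_neg, abs_one, one_pow, one_mul]
    rw [abs_of_pos (by positivity)]
  have t0 : 0 ≤ q⁻¹ := by positivity
  have t1 : q⁻¹ < 1 := inv_lt_one_of_one_lt₀ hq
  have hb : ∀ N : ℕ, |q⁻¹ ^ N * z| ≤ z := fun N => by
    rw [abs_of_nonneg (by positivity)]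
    exact mul_le_of_le_one_left h0 (pow_le_one₀ t0 t1.le)
  have step : ∀ N : ℕ, (∑' i, c i * (q⁻¹ ^ N * z) ^ i) * (1 + z / q ^ (N + 1)) =
      ∑' i, c i * (q⁻¹ ^ (N + 1) * z) ^ i := fun N => by
    have a1 := ser_summ hs (hb N)
    have a2 := ser_summ hs (hb (N + 1))
    have a3 := (a1.hasSum.sub a2.hasSum)
    rw [← hasSum_nat_add_iff' 1, sum_range_one, pow_zero, pow_zero, sub_self, sub_zero] at a3
    have a4 := a1.hasSum.mul_right (-(z / q ^ (N + 1)))
    have a5 := a3.unique (hs_congr a4 fun i => by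
      have h1 := (fa_pos hq i).ne'
      have h2 : q ^ (i + 1) - 1 ≠ 0 := (sub_pos.2 (one_lt_pow₀ hq i.succ_ne_zero)).ne'
      have h3 : q ≠ 0 := by positivity
      simp only [c, fa_succ, choose_succ]
      rw [pow_succ q⁻¹ N, mul_right_comm _ q⁻¹ z, mul_pow _ q⁻¹, div_eq_mul_inv z, ← inv_pow q (N + 1),
        pow_succ q⁻¹ N]
      generalize q⁻¹ ^ N = t
      rw [inv_pow]
      field_simp
      ring)
    linarith
  have it : ∀ N : ℕ, (∑' i, c i * z ^ i) * ∏ i ∈ range N, (1 + z / q ^ (i + 1)) =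
      ∑' i, c i * (q⁻¹ ^ N * z) ^ i := fun N => by
    induction N with
    | zero => simp
    | succ N ih => rw [prod_range_succ, ← mul_assoc, ih, step]
  have hm := (Real.multipliable_one_add_of_summable
    (by simpa using summ_geo hq z 0 : Summable fun i : ℕ => z / q ^ (i + 1))).hasProd.tendsto_prod_nat
  have := tendsto_nhds_unique ((hm.const_mul _).congr it) (ser_lim hs h0 t0 t1)
  rw [show c 0 = 1 by simp [c, fa]] at this
  rw [← eq_inv_of_mul_eq_one_left this]
  exact (ser_summ hs (abs_of_nonneg h0).le).hasSum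

theorem euler_G (hq : 1 < q) (k : ℕ) :
    HasSum (fun i => (-1) ^ i / fa q i * (q⁻¹ ^ k) ^ i) (∏' i : ℕ, (1 - 1 / q ^ (k + i + 1))) := by
  let c : ℕ → ℝ := fun i => (-1) ^ i / fa q i
  have hs : Summable fun i => |c i| * 1 ^ i :=
    (summ_S hq zero_le_one hq).of_nonneg_of_le (fun i => by positivity) fun i => by
      have := fa_pos hq i
      simp only [c, abs_div, abs_pow, abs_neg, abs_one, one_pow, mul_one, abs_of_pos this]
      gcongr
      exact one_le_pow₀ hq.le
  have t0 : 0 ≤ q⁻¹ := by positivity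
  have t1 : q⁻¹ < 1 := inv_lt_one_of_one_lt₀ hq
  have hb : ∀ N : ℕ, |q⁻¹ ^ N| ≤ 1 := fun N => by
    rw [abs_of_nonneg (by positivity)]
    exact pow_le_one₀ t0 t1.le
  have step : ∀ N : ℕ, ∑' i, c i * (q⁻¹ ^ N) ^ i =
      (1 - 1 / q ^ (N + 1)) * ∑' i, c i * (q⁻¹ ^ (N + 1)) ^ i := fun N => by
    have a1 := ser_summ hs (hb N)
    have a2 := ser_summ hs (hb (N + 1))
    have a3 := (a1.hasSum.sub a2.hasSum)
    rw [← hasSum_nat_add_iff' 1, sum_range_one, pow_zero, pow_zero, sub_self, sub_zero] at a3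
    have a4 := a2.hasSum.mul_left (-(1 / q ^ (N + 1)))
    have a5 := a3.unique (hs_congr a4 fun i => by
      have h1 := (fa_pos hq i).ne'
      have h2 : q ^ (i + 1) - 1 ≠ 0 := (sub_pos.2 (one_lt_pow₀ hq i.succ_ne_zero)).ne'
      have h3 : q ≠ 0 := by positivity
      simp only [c, fa_succ]
      rw [one_div, ← inv_pow q (N + 1), pow_succ q⁻¹ N, mul_pow, mul_pow]
      generalize q⁻¹ ^ N = t
      rw [inv_pow, inv_pow]
      field_simp
      ring)
    linarith
  have it : ∀ N : ℕ, ∑' i, c i * (q⁻¹ ^ k) ^ i = (∏ i ∈ range N, (1 - 1 / q ^ (k + i + 1))) *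
      ∑' i, c i * (q⁻¹ ^ (k + N)) ^ i := fun N => by
    induction N with
    | zero => simp
    | succ N ih => rw [prod_range_succ, mul_assoc, ← add_assoc, ← step, ih]
  have hm := (Real.multipliable_one_add_of_summable (summ_geo hq (-1) k)).hasProd.tendsto_prod_nat
  simp only [neg_div, ← sub_eq_add_neg] at hm
  have hl := (ser_lim hs zero_le_one t0 t1).comp (tendsto_add_atTop_nat k)
  simp only [Function.comp_def, mul_one, add_comm _ k] at hl
  have := tendsto_nhds_unique tendsto_const_nhds ((hm.mul hl).congr fun N => (it N).symm)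
  rw [show c 0 = 1 by simp [c, fa], mul_one] at this
  rw [← this]
  exact (ser_summ hs (hb k)).hasSum

theorem sum_S (hq : 1 < q) {s : ℝ} (h0 : 0 ≤ s) (hs : s < q) (k : ℕ) :
    HasSum (fun i => ww q k i * (q ^ (k + i).choose 2 * s ^ (k + i))) (lawS q s k) := by
  have := (euler_S hq h0 hs).mul_left (s ^ k / fa q k)
  rw [← div_eq_mul_inv] at this
  refine hs_congr this fun i => ?_
  have := (fa_pos hq i).ne'
  have := (fa_pos hq k).ne'
  rw [ww, choose_add, pow_add, pow_add, pow_add]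
  field_simp

theorem sum_G (hq : 1 < q) (k : ℕ) : HasSum (fun i => ww q k i * 1) (lawG q k) := by
  have := (euler_G hq k).div_const (q ^ k.choose 2 * fa q k)
  refine hs_congr this fun i => ?_
  have := (fa_pos hq i).ne'
  have := (fa_pos hq k).ne'
  rw [ww, inv_pow, inv_pow, pow_mul]
  field_simp

end Pool.Agent.P.MP_cc10d1_gt.R
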