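import Pool.Agent.P.MP_cc10d1_gt.R.Lin
import Pool.Agent.P.MP_cc10d1_gt.R.QS

/-! The limit law from the moments. -/

set_option autoImplicit false

namespace Pool.Agent.P.MP_cc10d1_gt.R

open Finset Filter Topology T

theorem law_of_moments {q : ℝ} (hq : 1 < q) (c : ℕ → ℝ) (k : ℕ) {P : ℝ}
    (hP : HasSum (fun i => ww q k i * c (k + i)) P) (K : ∀ n, Br n → ℕ)
    (hm : ∀ j, ∃ n0 : ℕ, ∀ n, n0 ≤ n → ∀ E : Br n → Prop, Ev n E →
      Lim E (fun b => AA q j (q ^ K n b)) (c j)) {ε : ℝ} (hε : 0 < ε) :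
    ∃ n0 : ℕ, ∀ n, n0 ≤ n → ∀ E : Br n → Prop, Ev n E → ∀ᶠ l in atTop,
      |bm (n + 2 * l) E (fun b => if K n b = k then 1 else 0) - P| < ε := by
  choose n0 h0 using hm
  obtain ⟨I, hI⟩ := eventually_atTop.1
    (hP.tendsto_sum_nat.eventually (Ioo_mem_nhds (sub_lt_self P hε) (lt_add_of_pos_right P hε)))
  refine ⟨(range (2 * I + 2)).sup fun i => n0 (k + i), fun n hn E hE => ?_⟩
  have h1 : ∀ J, J ≤ 2 * I + 2 → Lim E (fun b => ∑ i ∈ range J, ww q k i * AA q (k + i) (q ^ K n b))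
      (∑ i ∈ range J, ww q k i * c (k + i)) := fun J hJ =>
    Lim.sum _ fun i hi => (h0 _ n ((le_sup (f := fun i => n0 (k + i))
      (mem_range.2 ((mem_range.1 hi).trans_le hJ))).trans hn) E hE).mul _
  filter_upwards [(h1 (2 * I + 1) (by omega)).eventually (gt_mem_nhds (hI _ (by omega)).2),
    (h1 (2 * I + 1 + 1) le_rfl).eventually (lt_mem_nhds (hI _ (by omega)).1)] with l a1 a2
  have b1 := bm_mono (n + 2 * l) (E := E) fun b _ => sub_nonneg.1 (by
    simpa only [pow_mul, neg_one_sq, one_pow, one_mul] using bonf hq k (2 * I) (K n b))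
  have b2 := bm_mono (n + 2 * l) (E := E) fun b _ => sub_nonpos.1 (by
    simpa only [pow_succ (-1 : ℝ) (2 * I), pow_mul, neg_one_sq, one_pow, one_mul, neg_mul,
      Left.nonneg_neg_iff] using bonf hq k (2 * I + 1) (K n b))
  rw [abs_lt]
  constructor <;> linarith

open Classical in
theorem law_aff {F : Type} [Field F] [Finite F] (a : Fˣ) (h1 : (a : F) ≠ 1)
    (hg : Subring.closure {(a : F)} = ⊤) (k : ℕ) {ε : ℝ} (hε : 0 < ε) :
    ∃ n0 : ℕ, ∀ n, n0 ≤ n → ∀ E : Br n → Prop, Ev n E → ∀ᶠ l in atTop,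
      |bm (n + 2 * l) E (fun b => if Module.finrank F (V0 a b) = k then 1 else 0) -
        if ∃ σ : F ≃+* F, σ a = ((a⁻¹ : Fˣ) : F) then
          lawS (Nat.card F) (if (a : F) = -1 then 1 else √(Nat.card F)) k
        else lawG (Nat.card F) k| < ε := by
  have hq : (1 : ℝ) < Nat.card F := Nat.one_lt_cast.2 Finite.one_lt_card
  refine law_of_moments hq (fun j => Nat.card (Forms (sm a (Fin j → F)))) k ?_
    (fun n b => Module.finrank F (V0 a b)) (lim_mom a h1 hg) hε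
  split_ifs with h h'
  · obtain ⟨σ, h⟩ := h
    refine hs_congr (sum_S hq zero_le_one hq k) fun i => ?_
    rw [card_forms_sd a hg h, card_fix_neg a h1 hg σ h']
    push_cast
    rfl
  · obtain ⟨σ, h⟩ := h
    refine hs_congr (sum_S hq (Real.sqrt_nonneg _) ?_ k) fun i => ?_
    · rw [Real.sqrt_lt' (by linarith)]; nlinarith
    · rw [card_forms_sd a hg h, Nat.cast_mul, Nat.cast_pow, Nat.cast_pow]
      congr 3
      rw [← card_fix_sq a h1 hg h h', Nat.cast_pow, Real.sqrt_sq (Nat.cast_nonneg _)]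
  · exact hs_congr (sum_G hq k) fun i => by rw [card_forms_gen a hg h, Nat.cast_one]

end Pool.Agent.P.MP_cc10d1_gt.R
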