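import Mathlib

/-! The limit laws. -/

set_option autoImplicit false

namespace Pool.Agent.P.MP_cc10d1_gt.R

/-- The law in the self-dual cases. -/
noncomputable def lawS (q s : ℝ) (k : ℕ) : ℝ :=
  s ^ k / (∏ i ∈ Finset.range k, (q ^ (i + 1) - 1)) / ∏' i : ℕ, (1 + s / q ^ (i + 1))

/-- The law in the other case. -/
noncomputable def lawG (q : ℝ) (k : ℕ) : ℝ :=
  (∏' i : ℕ, (1 - 1 / q ^ (k + i + 1))) /
    (q ^ k.choose 2 * ∏ i ∈ Finset.range k, (q ^ (i + 1) - 1))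

end Pool.Agent.P.MP_cc10d1_gt.R
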