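import Pool.Agent.P.MP_cc10d1_gt.R.Forms

/-! Colourings by affine quandles over a finite field. -/

set_option autoImplicit false

namespace Pool.Agent.P.MP_cc10d1_gt.R

open Finset T Quandles

variable {F : Type} [Field F] (a : Fˣ) {n : ℕ}

theorem isHom_lin {M M' : Type} [AddCommGroup M] [AddCommGroup M'] {θ : M ≃+ M} {θ' : M' ≃+ M'}
    (f : M →+ M') (h : ∀ x, f (θ x) = θ' (f x)) : IsHom (Q := Aff θ) (R := Aff θ') f :=
  fun (x y : M) => by
    change f (afa θ x y) = afa θ' (f x) (f y)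
    simp only [afa, map_add, h, map_sub]

theorem rho_lin {j : ℕ} (f : (Fin j → F) →ₗ[F] F) (b : Br n) (x : Fin (n + 1) → Fin j → F) :
    rho (Aff (mu a)) n b (fun r => f (x r)) =
      fun r => f (rho (Aff (sm a (Fin j → F))) n b x r) :=
  rho_map (isHom_lin (θ := sm a (Fin j → F)) (θ' := mu a) f.toAddMonoidHom
    fun y => f.map_smul a y) b x

theorem fix_pi {j : ℕ} (b : Br n) (x : Fin (n + 1) → Fin j → F) :
    rho (Aff (sm a (Fin j → F))) n b x = x ↔
      ∀ i, rho (Aff (mu a)) n b (fun r => x r i) = fun r => x r i :=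
  ⟨fun h i => (rho_lin a (LinearMap.proj i) b x).trans (by rw [h]; rfl), fun h =>
    funext fun r => funext fun i =>
      congrFun ((rho_lin a (LinearMap.proj i) b x).symm.trans (h i)) r⟩

theorem fix_comb {j : ℕ} (b : Br n) (v : Fin j → Fin (n + 1) → F)
    (h : ∀ i, rho (Aff (mu a)) n b (v i) = v i) (f : (Fin j → F) →ₗ[F] F) :
    rho (Aff (mu a)) n b (fun r => f fun i => v i r) = fun r => f fun i => v i r :=
  (rho_lin a f b fun r i => v i r).trans (by rw [(fix_pi a b fun r i => v i r).2 h])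

theorem fix_add (b : Br n) {u v : Fin (n + 1) → F} (hu : rho (Aff (mu a)) n b u = u)
    (hv : rho (Aff (mu a)) n b v = v) :
    rho (Aff (mu a)) n b (fun r => u r + v r) = fun r => u r + v r := by
  simpa using fix_comb a b ![u, v] (Fin.forall_fin_two.2 ⟨hu, hv⟩)
    ((LinearMap.proj 0 : (Fin 2 → F) →ₗ[F] F) + (LinearMap.proj 1 : (Fin 2 → F) →ₗ[F] F))

/-- The colourings that vanish on the first strand. -/
def V0 (b : Br n) : Submodule F (Fin (n + 1) → F) where
  carrier := {v | rho (Aff (mu a)) n b v = v ∧ v 0 = 0}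
  zero_mem' := ⟨rho_const (X := Aff (mu a)) b (0 : F), rfl⟩
  add_mem' := fun {u v} hu hv => ⟨fix_add a b hu.1 hv.1,
    by rw [Pi.add_apply, hu.2, hv.2, add_zero]⟩
  smul_mem' := fun c v hv => ⟨fix_comb a b ![v] (Fin.forall_fin_one.2 hv.1) (c • LinearMap.proj 0),
    by rw [Pi.smul_apply, hv.2, smul_zero]⟩

theorem fix_shift (b : Br n) {v : Fin (n + 1) → F} (h : rho (Aff (mu a)) n b v = v) (c : F) :
    rho (Aff (mu a)) n b (fun r => v r + c) = fun r => v r + c :=
  fix_add a b h (rho_const (X := Aff (mu a)) b c)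

theorem card_fix_eq [Finite F] (b : Br n) : Nat.card {x // rho (Aff (mu a)) n b x = x} =
    Nat.card F ^ (Module.finrank F (V0 a b) + 1) := by
  rw [pow_succ, ← Module.natCard_eq_pow_finrank, ← Nat.card_prod]
  symm
  refine Nat.card_eq_of_bijective (fun p => ⟨fun r => p.1.1 r + p.2, fix_shift a b p.1.2.1 _⟩)
    ⟨?_, ?_⟩
  · rintro ⟨⟨u, hu⟩, c⟩ ⟨⟨v, hv⟩, d⟩ e
    have e1 : ∀ r, u r + c = v r + d := congrFun (congrArg Subtype.val e)
    have e2 := e1 0
    rw [hu.2, hv.2, zero_add, zero_add] at e2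
    subst e2
    obtain rfl : u = v := funext fun r => add_right_cancel (e1 r)
    rfl
  · rintro ⟨(x : Fin (n + 1) → F), hx⟩
    exact ⟨(⟨fun r => x r + -x 0, fix_shift a b hx _, add_neg_cancel _⟩, x 0),
      Subtype.ext (funext fun r => neg_add_cancel_right (x r) (x 0))⟩

theorem tFull_iff_span (h1 : (a : F) ≠ 1) (hg : Subring.closure {(a : F)} = ⊤) {M : Type}
    [AddCommGroup M] [Module F M] {ι : Type} (x : ι → M) (i0 : ι) :
    TFull (Q := Aff (sm a M)) x ↔ Submodule.span F (Set.range fun i => x i - x i0) = ⊤ := by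
  have s1 : ∀ u w : M, sy (Q := Aff (sm a M)) u w = u + (a : F) • (w - u) := fun _ _ => rfl
  have s2 : ∀ u w : M, (sy (Q := Aff (sm a M)) u)⁻¹ w = u + ((a⁻¹ : Fˣ) : F) • (w - u) :=
    fun _ _ => rfl
  constructor
  · intro h
    generalize hD : Submodule.span F (Set.range fun i => x i - x i0) = D
    have hx : ∀ i, x i - x i0 ∈ D := fun i => hD ▸ Submodule.subset_span ⟨i, rfl⟩
    have k : ∀ (i : ι) (c : F) (w : M), w - x i0 ∈ D → x i + c • (w - x i) - x i0 ∈ D :=
      fun i c w hw => by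
        rw [add_sub_right_comm, ← sub_sub_sub_cancel_right w (x i) (x i0)]
        exact D.add_mem (hx i) (D.smul_mem c (D.sub_mem hw (hx i)))
    have key : ∀ φ (w : M), w - x i0 ∈ D →
        (show M from hol (Q := Aff (sm a M)) x φ w) - x i0 ∈ D := by
      intro φ
      induction φ using FreeGroup.induction_on with
      | C1 => intro w hw; rw [map_one]; exact hw
      | of i => intro w hw; rw [hol_of]; exact k i _ w hw
      | inv_of i _ => intro w hw; rw [map_inv, hol_of]; exact k i _ w hw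
      | mul φ ψ h1 h2 => intro w hw; rw [map_mul]; exact h1 _ (h2 w hw)
    refine Submodule.eq_top_iff'.2 fun m => ?_
    obtain ⟨φ, e⟩ := h (x i0) (m + x i0)
    have := key φ (x i0) (by rw [sub_self]; exact D.zero_mem)
    rwa [e, add_sub_cancel_right] at this
  · intro h
    let Tr : AddSubgroup M :=
      { carrier := {m | ∃ φ, ∀ w : M, hol (Q := Aff (sm a M)) x φ w = w + m}
        zero_mem' := ⟨1, fun w => by rw [map_one, add_zero]; rfl⟩
        add_mem' := by
          rintro m m' ⟨φ, e⟩ ⟨ψ, e'⟩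
          exact ⟨ψ * φ, fun w => by rw [map_mul, Equiv.Perm.mul_apply, e, e', add_assoc]⟩
        neg_mem' := by
          rintro m ⟨φ, e⟩
          exact ⟨φ⁻¹, fun w => by
            rw [map_inv, Equiv.Perm.inv_eq_iff_eq, e, neg_add_cancel_right]⟩ }
    have hs : ∀ c : F, ∀ m ∈ Tr, c • m ∈ Tr := fun c => by
      have hc : c ∈ Subring.closure {(a : F)} := hg ▸ Subring.mem_top c
      induction hc using Subring.closure_induction with
      | mem c hc =>
        obtain rfl := hc
        rintro m ⟨φ, e⟩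
        refine ⟨.of i0 * φ * (FreeGroup.of i0)⁻¹, fun w => ?_⟩
        rw [map_mul, map_mul, map_inv, hol_of, Equiv.Perm.mul_apply, Equiv.Perm.mul_apply, s2, e,
          s1, add_sub_right_comm, add_sub_cancel_left, smul_add, smul_smul, Units.mul_inv, one_smul]
        abel
      | zero => intro m _; rw [zero_smul]; exact Tr.zero_mem
      | one => intro m hm; rwa [one_smul]
      | add c d _ _ h h' => intro m hm; rw [add_smul]; exact Tr.add_mem (h m hm) (h' m hm)
      | neg c _ h => intro m hm; rw [neg_smul]; exact Tr.neg_mem (h m hm)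
      | mul c d _ _ h h' => intro m hm; rw [mul_smul]; exact h _ (h' m hm)
    have ht : ∀ m ∈ Submodule.span F (Set.range fun i => x i - x i0), m ∈ Tr := fun m hm => by
      induction hm using Submodule.span_induction with
      | mem m hm =>
        obtain ⟨i, rfl⟩ := hm
        have : (1 - a : F) • (x i - x i0) ∈ Tr := ⟨.of i * (FreeGroup.of i0)⁻¹, fun w => by
          rw [map_mul, map_inv, hol_of, hol_of, Equiv.Perm.mul_apply, s2, s1, add_sub_right_comm,
            smul_add, smul_smul, Units.mul_inv, one_smul, sub_smul, one_smul, smul_sub, smul_sub]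
          abel⟩
        have := hs (1 - a : F)⁻¹ _ this
        rwa [inv_smul_smul₀ (sub_ne_zero.2 h1.symm)] at this
      | zero => exact Tr.zero_mem
      | add _ _ _ _ h h' => exact Tr.add_mem h h'
      | smul c m _ h => exact hs c m h
    intro (u : M) (w : M)
    obtain ⟨φ, e⟩ := ht (w - u) (h ▸ Submodule.mem_top)
    exact ⟨φ, (e u).trans (add_sub_cancel u w)⟩

theorem cn_sm (h1 : (a : F) ≠ 1) (hg : Subring.closure {(a : F)} = ⊤) (M : Type)
    [AddCommGroup M] [Module F M] : Cn (Aff (sm a M)) :=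
  (tFull_iff_span a h1 hg (id : M → M) 0).2 (Submodule.eq_top_iff'.2 fun m =>
    Submodule.subset_span ⟨m, sub_zero m⟩)

theorem card_indep {V : Type} [AddCommGroup V] [Module F V] [Finite F] [Finite V] (j : ℕ) :
    (Nat.card {s : Fin j → V // LinearIndependent F s} : ℝ) =
      ∏ i ∈ range j, ((Nat.card F : ℝ) ^ Module.finrank F V - Nat.card F ^ i) := by
  have := Fintype.ofFinite F
  by_cases h : j ≤ Module.finrank F V
  · rw [card_linearIndependent h, Nat.cast_prod, ← Fin.prod_univ_eq_prod_range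
      (fun i => (Nat.card F : ℝ) ^ Module.finrank F V - Nat.card F ^ i)]
    refine prod_congr rfl fun i _ => ?_
    rw [Nat.cast_sub (Nat.pow_le_pow_right Fintype.card_pos (by omega)), Nat.card_eq_fintype_card]
    push_cast
    rfl
  · rw [prod_eq_zero (mem_range.2 (not_le.1 h)) (sub_self _), Nat.cast_eq_zero]
    refine Nat.card_eq_zero.2 (Or.inl ⟨fun s => h ?_⟩)
    simpa using s.2.fintype_card_le_finrank

theorem card_full [Finite F] (h1 : (a : F) ≠ 1) (hg : Subring.closure {(a : F)} = ⊤) (j : ℕ)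
    (b : Br n) : (Nat.card {x // TFull x ∧ rho (Aff (sm a (Fin j → F))) n b x = x} : ℝ) =
      Nat.card F ^ j * ∏ i ∈ range j,
        ((Nat.card F : ℝ) ^ Module.finrank F (V0 a b) - Nat.card F ^ i) := by
  have e : (Nat.card F : ℝ) ^ j = Nat.card (Fin j → F) := by
    rw [Nat.card_fun, Nat.card_eq_fintype_card (α := Fin j), Fintype.card_fin, Nat.cast_pow]
  have k : ∀ (s : Fin j → V0 a b) (c : Fin j → F),
      TFull (Q := Aff (sm a (Fin j → F))) (fun r i => (s i).1 r + c i) ↔ LinearIndependent F s := by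
    intro s c
    rw [tFull_iff_span a h1 hg _ 0, ← (V0 a b).subtype.linearIndependent_iff_of_injOn
      (Subtype.val_injective.injOn), ← span_flip_eq_top_iff_linearIndependent]
    congr! 4 with r
    funext i
    simp [_root_.flip, (s i).2.2]
  rw [← card_indep, e, ← Nat.cast_mul, ← Nat.card_prod, Nat.cast_inj]
  symm
  refine Nat.card_eq_of_bijective (fun p => ⟨fun r i => (p.2.1 i).1 r + p.1 i, (k _ _).2 p.2.2,
    (fix_pi a b _).2 fun i => fix_shift a b (p.2.1 i).2.1 _⟩) ⟨?_, ?_⟩
  · rintro ⟨c, s, hs⟩ ⟨d, t, ht⟩ e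
    have e1 : ∀ r i, (s i).1 r + c i = (t i).1 r + d i := fun r =>
      congrFun (congrFun (congrArg Subtype.val e) r)
    obtain rfl : c = d := funext fun i => by
      have := e1 0 i
      rwa [(s i).2.2, (t i).2.2, zero_add, zero_add] at this
    obtain rfl : s = t := funext fun i => Subtype.ext (funext fun r => add_right_cancel (e1 r i))
    rfl
  · rintro ⟨(x : Fin (n + 1) → Fin j → F), hx, hx'⟩
    let s : Fin j → V0 a b := fun i =>
      ⟨fun r => x r i + -x 0 i, fix_shift a b ((fix_pi a b x).1 hx' i) _, add_neg_cancel _⟩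
    have e2 : (fun r i => (s i).1 r + x 0 i) = x :=
      funext fun r => funext fun i => neg_add_cancel_right (x r i) (x 0 i)
    exact ⟨(x 0, ⟨s, (k s (x 0)).1 (e2.symm ▸ hx)⟩), Subtype.ext e2⟩

/-- The factorial moments. -/
theorem lim_mom [Finite F] (h1 : (a : F) ≠ 1) (hg : Subring.closure {(a : F)} = ⊤) (j : ℕ) :
    ∃ n0 : ℕ, ∀ n, n0 ≤ n → ∀ E : Br n → Prop, Ev n E →
      Lim E (fun b => ∏ i ∈ range j,
        ((Nat.card F : ℝ) ^ Module.finrank F (V0 a b) - Nat.card F ^ i))
        (Nat.card (Forms (sm a (Fin j → F)))) := by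
  obtain ⟨n0, h⟩ := lim_full (Aff (sm a (Fin j → F)))
  refine ⟨n0, fun n hn E hE => ?_⟩
  obtain ⟨_, h2⟩ := h n hn E hE (cn_sm a h1 hg _) ⟨(0 : Fin j → F)⟩
  have hb : Function.Bijective fun x : Fin j → F => x - sm a _ x :=
    Finite.injective_iff_bijective.1 fun x y e =>
      smul_right_injective _ (sub_ne_zero.2 h1.symm) (by simpa [sub_smul, sm_apply] using e)
  have hq : (Nat.card F : ℝ) ^ j ≠ 0 := pow_ne_zero _ (Nat.cast_ne_zero.2 Nat.card_pos.ne')
  have h3 := h2.mul ((Nat.card F : ℝ) ^ j)⁻¹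
  rw [card_env _ hb (cn_sm a h1 hg _), Nat.card_fun, Nat.card_eq_fintype_card (α := Fin j),
    Fintype.card_fin, Nat.cast_mul, Nat.cast_pow, mul_comm, mul_inv_cancel_right₀ hq] at h3
  exact h3.congr fun b _ => by rw [card_full a h1 hg, inv_mul_cancel_left₀ hq]

end Pool.Agent.P.MP_cc10d1_gt.R
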