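import Mathlib

/-! Sums over all words of a given length, return counts, equidistribution in finite fibres. -/

set_option autoImplicit false

namespace Pool.Agent.P.MP_cc10d1_gt.R

open Finset Filter Topology

variable {G I : Type*} [Group G] [Fintype I] (s : I → G)

/-- The value of a word. -/
def wp {I : Type*} (s : I → G) (w : List I) : G := (w.map s).prod

/-- The sum of `F` over all words of length `L`. -/
noncomputable def Lam (L : ℕ) (F : G → ℝ) : ℝ := ∑ w : Fin L → I, F (wp s (List.ofFn w))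

theorem Lam_zero (F : G → ℝ) : Lam s 0 F = F 1 := by simp [Lam, wp]

theorem Lam_succ (L : ℕ) (F : G → ℝ) :
    Lam s (L + 1) F = ∑ i, Lam s L fun g => F (s i * g) := by
  unfold Lam
  rw [← (Fin.consEquiv fun _ => I).sum_comp, Fintype.sum_prod_type]
  refine sum_congr rfl fun i _ => sum_congr rfl fun w _ => ?_
  simp [wp, List.ofFn_succ, Fin.consEquiv]

theorem Lam_add (a b : ℕ) (F : G → ℝ) :
    Lam s (a + b) F = Lam s a fun g => Lam s b fun h => F (g * h) := by
  induction a generalizing F with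
  | zero => simp [Lam_zero]
  | succ a ih =>
    rw [show a + 1 + b = a + b + 1 by omega, Lam_succ, Lam_succ]
    refine sum_congr rfl fun i _ => ?_
    rw [ih]
    simp only [mul_assoc]

theorem Lam_mono (L : ℕ) {F F' : G → ℝ} (h : ∀ g, F g ≤ F' g) : Lam s L F ≤ Lam s L F' :=
  sum_le_sum fun _ _ => h _

theorem Lam_nonneg (L : ℕ) {F : G → ℝ} (h : ∀ g, 0 ≤ F g) : 0 ≤ Lam s L F :=
  sum_nonneg fun _ _ => h _

theorem Lam_const (L : ℕ) (c : ℝ) : Lam s L (fun _ => c) = (Fintype.card I : ℝ) ^ L * c := by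
  simp [Lam]

theorem Lam_sum {J : Type*} (t : Finset J) (L : ℕ) (F : J → G → ℝ) :
    Lam s L (fun g => ∑ j ∈ t, F j g) = ∑ j ∈ t, Lam s L (F j) := by
  unfold Lam
  rw [sum_comm]

theorem Lam_mul (L : ℕ) (c : ℝ) (F : G → ℝ) : Lam s L (fun g => c * F g) = c * Lam s L F := by
  unfold Lam
  rw [mul_sum]

theorem Lam_sub (L : ℕ) (F F' : G → ℝ) :
    Lam s L (fun g => F g - F' g) = Lam s L F - Lam s L F' := by
  unfold Lam
  rw [sum_sub_distrib]

theorem Lam_one (F : G → ℝ) : Lam s 1 F = ∑ i, F (s i) := by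
  rw [Lam_succ]
  simp [Lam_zero]

theorem Lam_term (w : List I) {F : G → ℝ} (h : ∀ g, 0 ≤ F g) :
    F (wp s w) ≤ Lam s w.length F := by
  have := single_le_sum (f := fun w' : Fin w.length → I => F (wp s (List.ofFn w')))
    (fun _ _ => h _) (mem_univ w.get)
  rwa [List.ofFn_get] at this

theorem Lam_inv (τ : I ≃ I) (hτ : ∀ i, s (τ i) = (s i)⁻¹) (L : ℕ) (F : G → ℝ) :
    Lam s L (fun g => F g⁻¹) = Lam s L F := by
  induction L generalizing F with
  | zero => simp [Lam_zero]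
  | succ L ih =>
    rw [Lam_succ, Lam_add, ← τ.sum_comp]
    simp only [Lam_one, Lam_sum, mul_inv_rev, hτ, inv_inv]
    exact sum_congr rfl fun i _ => ih fun g => F (g * s i)

/-! ### Return counts -/

open Classical in
/-- The indicator function of a property. -/
noncomputable def ind {α : Type*} (E : α → Prop) (g : α) : ℝ := if E g then 1 else 0

theorem ind_nonneg {α : Type*} (E : α → Prop) (g : α) : 0 ≤ ind E g := by
  unfold ind; split_ifs <;> norm_num

theorem ind_le {α : Type*} (E : α → Prop) (g : α) : ind E g ≤ 1 := by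
  unfold ind; split_ifs <;> norm_num

theorem ind_pos {α : Type*} {E : α → Prop} {g : α} (h : E g) : ind E g = 1 := if_pos h

theorem ind_neg {α : Type*} {E : α → Prop} {g : α} (h : ¬ E g) : ind E g = 0 := if_neg h

/-- The number of words of length `L` with value in `N`. -/
noncomputable def W (N : Subgroup G) (L : ℕ) : ℝ := Lam s L (ind (· ∈ N))

theorem W_nonneg (N : Subgroup G) (L : ℕ) : 0 ≤ W s N L := Lam_nonneg s L (ind_nonneg _)

theorem Lam_W {N : Subgroup G} {E : G → Prop} (hE : ∀ g c, E g → c ∈ N → E (g * c)) (a b : ℕ) :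
    Lam s a (ind E) * W s N b ≤ Lam s (a + b) (ind E) := by
  rw [Lam_add, mul_comm, ← Lam_mul]
  refine Lam_mono s a fun g => ?_
  by_cases hg : E g
  · rw [ind_pos hg, mul_one]
    refine Lam_mono s b fun h => ?_
    by_cases hh : h ∈ N
    · rw [ind_pos (E := (· ∈ N)) hh, ind_pos (hE g h hg hh)]
    · rw [ind_neg (E := (· ∈ N)) hh]; exact ind_nonneg _ _
  · rw [ind_neg hg, mul_zero]
    exact Lam_nonneg s b fun _ => ind_nonneg _ _

theorem W_mul (N : Subgroup G) (a b : ℕ) : W s N a * W s N b ≤ W s N (a + b) :=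
  Lam_W s (E := (· ∈ N)) (fun _ _ hg hc => N.mul_mem hg hc) a b

theorem W_zero (N : Subgroup G) : W s N 0 = 1 := by
  rw [W, Lam_zero]; exact ind_pos N.one_mem

theorem W_pow (N : Subgroup G) (a k : ℕ) : W s N a ^ k ≤ W s N (k * a) := by
  induction k with
  | zero => simp [W_zero]
  | succ k ih =>
    rw [pow_succ, add_mul, one_mul]
    exact (mul_le_mul_of_nonneg_right ih (W_nonneg s N a)).trans (W_mul s N _ _)

theorem Lam_sub_family {Ω : Type*} [Fintype Ω] (f : Ω → G) (R : ℕ)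
    (h : ∀ F : G → ℝ, (∀ g, 0 ≤ F g) → ∑ o, F (f o) ≤ Lam s R F) (k : ℕ) (F : G → ℝ)
    (hF : ∀ g, 0 ≤ F g) : Lam f k F ≤ Lam s (k * R) F := by
  induction k generalizing F with
  | zero => simp [Lam_zero]
  | succ k ih =>
    rw [Lam_succ, add_mul, one_mul, add_comm, Lam_add]
    refine (sum_le_sum fun o _ => ih _ fun _ => hF _).trans ?_
    exact h (fun g => Lam s (k * R) fun u => F (g * u)) fun g => Lam_nonneg s _ fun _ => hF _

theorem W_cs (τ : I ≃ I) (hτ : ∀ i, s (τ i) = (s i)⁻¹) {Ω T : Type*} [Fintype Ω] [Fintype T]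
    (f : Ω → G) (R : ℕ) (h : ∀ F : G → ℝ, (∀ g, 0 ≤ F g) → ∑ o, F (f o) ≤ Lam s R F)
    (N : Subgroup G) (k : ℕ) (val : (Fin k → Ω) → T)
    (hv : ∀ a b, val a = val b → wp f (List.ofFn a) * (wp f (List.ofFn b))⁻¹ ∈ N) :
    (Fintype.card Ω : ℝ) ^ (2 * k) ≤ Fintype.card T * W s N (2 * (k * R)) := by
  classical
  have h1 : ∑ a : Fin k → Ω, ∑ b : Fin k → Ω, (if val a = val b then (1 : ℝ) else 0) ≤
      W s N (2 * (k * R)) := by
    rw [W, two_mul, Lam_add]
    refine le_trans ?_ (Lam_sub_family s f R h k _ fun g => Lam_nonneg s _ fun _ => ind_nonneg _ _)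
    refine sum_le_sum fun a _ => ?_
    dsimp only
    rw [← Lam_inv s τ hτ]
    refine le_trans ?_ (Lam_sub_family s f R h k _ fun _ => ind_nonneg _ _)
    refine sum_le_sum fun b _ => ?_
    split_ifs with e
    · exact (ind_pos (E := (· ∈ N)) (hv a b e)).ge
    · exact ind_nonneg _ _
  let c : T → ℝ := fun t => ∑ a : Fin k → Ω, if val a = t then 1 else 0
  have h2 : ∑ t, c t = (Fintype.card Ω : ℝ) ^ k := by
    simp only [c]
    rw [sum_comm]
    simp
  have h3 : ∑ t, c t ^ 2 = ∑ a : Fin k → Ω, ∑ b : Fin k → Ω,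
      (if val a = val b then (1 : ℝ) else 0) := by
    simp only [c, sq, sum_mul_sum]
    rw [sum_comm]
    refine sum_congr rfl fun a _ => ?_
    rw [sum_comm]
    refine sum_congr rfl fun b _ => ?_
    rw [sum_eq_single (val a)]
    · simp [eq_comm]
    · intro t _ ht
      simp [ht.symm]
    · simp
  have h4 := sq_sum_le_card_mul_sum_sq (s := (univ : Finset T)) (f := c)
  rw [h2, h3, card_univ, ← pow_mul, mul_comm k] at h4
  exact h4.trans (mul_le_mul_of_nonneg_left h1 (Nat.cast_nonneg _))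

/-- The return counts have the maximal exponential rate. -/
def Kes (N : Subgroup G) : Prop :=
  ∀ θ : ℝ, 0 < θ → θ < 1 → ∃ R, 0 < R ∧ (θ * Fintype.card I) ^ (2 * R) ≤ W s N (2 * R)

theorem poly_small {θ : ℝ} (h0 : 0 < θ) (h1 : θ < 1) (c : ℝ) (m : ℕ) :
    ∃ k : ℕ, 0 < k ∧ c * ((k : ℝ) + 1) ^ m * θ ^ k ≤ 1 := by
  have h := (tendsto_pow_const_mul_const_pow_of_abs_lt_one m
    (r := θ) (by rwa [abs_of_pos h0])).comp (tendsto_add_atTop_nat 1)
  have h2 := (h.const_mul (c / θ)).eventually (gt_mem_nhds (show c / θ * 0 < 1 by simp))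
  obtain ⟨k, hk, hk'⟩ := (h2.and (eventually_gt_atTop 0)).exists
  refine ⟨k, hk', le_of_eq_of_le ?_ hk.le⟩
  simp only [Function.comp, Nat.cast_add, Nat.cast_one, pow_succ]
  field_simp

theorem kes_finite (τ : I ≃ I) (hτ : ∀ i, s (τ i) = (s i)⁻¹) {Γ : Type*} [Group Γ] [Finite Γ]
    (π : G →* Γ) {N : Subgroup G} (hN : ∀ g, π g = 1 → g ∈ N) : Kes s N := by
  intro θ h0 h1
  have := Fintype.ofFinite Γ
  obtain ⟨k, hk, h⟩ := poly_small (mul_pos h0 h0) (mul_lt_one_of_nonneg_of_lt_one_left h0.le h1 h1.le)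
    (Fintype.card Γ) 0
  refine ⟨k, hk, ?_⟩
  have h2 := W_cs s τ hτ s 1 (fun F _ => (Lam_one s F).ge) N k
    (fun a => π (wp s (List.ofFn a))) fun a b e => hN _ (by rw [map_mul, map_inv, e, mul_inv_cancel])
  rw [mul_one] at h2
  rw [mul_pow, pow_mul θ, sq]
  rw [pow_zero, mul_one] at h
  calc _ ≤ (θ * θ) ^ k * (Fintype.card Γ * W s N (2 * k)) := by gcongr
    _ = (Fintype.card Γ * (θ * θ) ^ k) * W s N (2 * k) := by ring
    _ ≤ 1 * W s N (2 * k) := mul_le_mul_of_nonneg_right h (W_nonneg s N _)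
    _ = _ := one_mul _

theorem kes_step (τ : I ≃ I) (hτ : ∀ i, s (τ i) = (s i)⁻¹) {N N' : Subgroup G} [N'.Normal]
    (hc : ∀ a ∈ N, ∀ b ∈ N, a * b * a⁻¹ * b⁻¹ ∈ N') (h : Kes s N) : Kes s N' := by
  classical
  intro θ h0 h1
  have hs0 : 0 < √θ := Real.sqrt_pos.2 h0
  have hs1 : √θ < 1 := by rwa [Real.sqrt_lt' one_pos, one_pow]
  obtain ⟨R, hR, hW⟩ := h _ hs0 hs1
  let Ω := {w : Fin (2 * R) → I // wp s (List.ofFn w) ∈ N}
  let f : Ω → G := fun o => wp s (List.ofFn o.1)
  have hcard : (Fintype.card Ω : ℝ) = W s N (2 * R) := by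
    simp only [W, Lam, ind, Ω, Fintype.card_subtype, sum_boole]
  have hθ : 0 < θ ^ (2 * R) := pow_pos h0 _
  obtain ⟨k, hk, hp⟩ := poly_small hθ (pow_lt_one₀ h0.le h1 (by omega)) 1 (Fintype.card Ω)
  have h2 := W_cs s τ hτ f (2 * R) (fun F hF =>
    (sum_subtype (univ.filter fun w => wp s (List.ofFn w) ∈ N) (by simp)
      fun w => F (wp s (List.ofFn w))).symm.trans_le
      (sum_le_sum_of_subset_of_nonneg (filter_subset _ _) fun _ _ _ => hF _)) N' k
    (fun a o => (⟨(List.ofFn a).count o, Nat.lt_succ_of_le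
      (List.count_le_length.trans List.length_ofFn.le)⟩ : Fin (k + 1))) (by
      intro a b e
      have hp : (List.ofFn a).Perm (List.ofFn b) :=
        List.perm_iff_count.2 fun o => congrArg Fin.val (congrFun e o)
      rw [← QuotientGroup.eq_one_iff, QuotientGroup.mk_mul, QuotientGroup.mk_inv, mul_inv_eq_one]
      change QuotientGroup.mk' N' _ = QuotientGroup.mk' N' _
      rw [wp, wp, map_list_prod, map_list_prod]
      refine ((hp.map f).map _).prod_eq' ?_
      refine List.pairwise_of_forall_mem_list ?_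
      simp only [List.mem_map]
      rintro _ ⟨_, ⟨x, -, rfl⟩, rfl⟩ _ ⟨_, ⟨y, -, rfl⟩, rfl⟩
      rw [← commutatorElement_eq_one_iff_commute, ← map_commutatorElement]
      exact (QuotientGroup.eq_one_iff _).2 (hc _ x.2 _ y.2))
  refine ⟨k * (2 * R), by positivity, ?_⟩
  rw [Fintype.card_fun, Fintype.card_fin] at h2
  push_cast at h2
  rw [one_mul] at hp
  have e : (θ * Fintype.card I) ^ (2 * (k * (2 * R))) =
      (θ ^ (2 * R)) ^ k * ((√θ * Fintype.card I) ^ (2 * R)) ^ (2 * k) := by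
    conv_lhs => rw [← Real.mul_self_sqrt h0.le]
    conv_rhs => rw [← Real.mul_self_sqrt h0.le, Real.sqrt_mul_self hs0.le]
    ring
  rw [e]
  calc _ ≤ (θ ^ (2 * R)) ^ k * (Fintype.card Ω : ℝ) ^ (2 * k) := by rw [hcard]; gcongr
    _ ≤ (θ ^ (2 * R)) ^ k * (((k : ℝ) + 1) ^ Fintype.card Ω * W s N' (2 * (k * (2 * R)))) := by
      gcongr
    _ = (((k : ℝ) + 1) ^ Fintype.card Ω * (θ ^ (2 * R)) ^ k) * W s N' (2 * (k * (2 * R))) := by
      ring
    _ ≤ 1 * W s N' (2 * (k * (2 * R))) := mul_le_mul_of_nonneg_right hp (W_nonneg s N' _)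
    _ = _ := one_mul _

theorem kes_lower [Nonempty I] (τ : I ≃ I) (hτ : ∀ i, s (τ i) = (s i)⁻¹) {N : Subgroup G}
    (h : Kes s N) {θ : ℝ} (h0 : 0 < θ) (h1 : θ < 1) :
    ∃ c : ℝ, 0 < c ∧ ∀ l, c * (θ * Fintype.card I) ^ (2 * l) ≤ W s N (2 * l) := by
  obtain ⟨R, hR, hW⟩ := h θ h0 h1
  have hI : (1 : ℝ) ≤ Fintype.card I := Nat.one_le_cast.2 Fintype.card_pos
  have h2 : 1 ≤ W s N 2 := by
    obtain ⟨i⟩ := ‹Nonempty I›
    have := Lam_term s [i, τ i] (ind_nonneg (· ∈ N))
    rwa [ind_pos (E := (· ∈ N)) (by simp [wp, hτ])] at this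
  refine ⟨((Fintype.card I : ℝ) ^ (2 * R))⁻¹, by positivity, fun l => ?_⟩
  have e : 2 * l = l / R * (2 * R) + l % R * 2 := by
    have := Nat.div_add_mod l R
    nlinarith
  have h3 : (θ * Fintype.card I) ^ (l % R * 2) ≤ (Fintype.card I : ℝ) ^ (2 * R) :=
    calc _ ≤ (Fintype.card I : ℝ) ^ (l % R * 2) := by
          gcongr
          nlinarith
      _ ≤ _ := pow_le_pow_right₀ hI (by have := Nat.mod_lt l hR; omega)
  rw [e, pow_add, mul_comm (l / R), pow_mul _ (2 * R), mul_comm (2 * R)]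
  refine le_trans ?_ (W_mul s N _ _)
  calc _ = ((θ * Fintype.card I) ^ (2 * R)) ^ (l / R) *
        ((θ * Fintype.card I) ^ (l % R * 2) / (Fintype.card I : ℝ) ^ (2 * R)) := by ring
    _ ≤ W s N (2 * R) ^ (l / R) * 1 := by
        gcongr
        · exact pow_nonneg (W_nonneg s N _) _
        · exact div_le_one_of_le₀ h3 (by positivity)
    _ ≤ _ := mul_le_mul (W_pow s N _ _) ((one_le_pow₀ h2).trans (W_pow s N _ _)) zero_le_one
        (W_nonneg s N _)

/-! ### Equidistribution -/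

theorem block {U : Type*} [Fintype U] {R : ℕ} (u : U → Fin R → I) (hu : Function.Injective u)
    (F : G → ℝ) {M : ℝ} (hM : ∀ g, -M ≤ F g)
    (hH : ∀ A B, 0 ≤ ∑ x, F (A * wp s (List.ofFn (u x)) * B)) (k r : ℕ) (A : G) :
    -(((Fintype.card I : ℝ) ^ R - Fintype.card U) ^ k * (Fintype.card I ^ r * M)) ≤
      Lam s (k * R + r) fun g => F (A * g) := by
  classical
  induction k generalizing A with
  | zero =>
    rw [pow_zero, one_mul, zero_mul, zero_add, ← mul_neg, ← Lam_const s]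
    exact Lam_mono s r fun g => hM _
  | succ k ih =>
    rw [show (k + 1) * R + r = R + (k * R + r) by ring, Lam_add, Lam,
      ← sum_add_sum_compl (univ.image u), sum_image fun a _ b _ h => hu h, ← Lam_sum]
    have h1 : 0 ≤ Lam s (k * R + r) fun g => ∑ x, F (A * (wp s (List.ofFn (u x)) * g)) :=
      Lam_nonneg s _ fun g => by simpa only [mul_assoc] using hH A g
    have h2 := card_nsmul_le_sum (univ.image u)ᶜ
      (fun w => Lam s (k * R + r) fun h => F (A * (wp s (List.ofFn w) * h))) _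
      fun w _ => by simpa only [mul_assoc] using ih (A * wp s (List.ofFn w))
    rw [card_compl, card_image_of_injective _ hu, card_univ, nsmul_eq_mul,
      Nat.cast_sub (Fintype.card_le_of_injective u hu), Fintype.card_fun, Fintype.card_fin] at h2
    push_cast at h2
    rw [pow_succ]
    linarith

omit [Fintype I] in
theorem pad [Nonempty I] (τ : I ≃ I) (hτ : ∀ i, s (τ i) = (s i)⁻¹) (w : List I) (j R : ℕ)
    (h : w.length + 2 * j = R) : ∃ v : Fin R → I, wp s (List.ofFn v) = wp s w := by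
  obtain ⟨i⟩ := ‹Nonempty I›
  induction j generalizing w with
  | zero => subst h; exact ⟨w.get, by rw [List.ofFn_get]⟩
  | succ j ih =>
    obtain ⟨v, hv⟩ := ih (i :: τ i :: w) (by simp only [List.length_cons]; omega)
    exact ⟨v, by rw [hv]; simp [wp, hτ]⟩

theorem walk [Nonempty I] (τ : I ≃ I) (hτ : ∀ i, s (τ i) = (s i)⁻¹) {D : Subgroup G} [D.Normal]
    (hK : Kes s D) {Γ : Type*} [Group Γ] [Finite Γ] (ρ : G →* Γ) [Fintype (D.map ρ)]
    (hev : ∀ c ∈ D, ∃ w : List I, wp s w = c ∧ Even w.length) {E : G → Prop}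
    (hE : ∀ g c, E g → c ∈ D → E (g * c)) (f : Γ → ℝ) (m : ℝ)
    (hm : ∀ g, E g → ∑ φ : D.map ρ, f (ρ g * φ) = Fintype.card (D.map ρ) * m)
    (w0 : List I) (h0 : E (wp s w0)) (n : ℕ) (hn : Even (n + w0.length)) :
    Tendsto (fun l => Lam s (n + 2 * l) (fun g => ind E g * f (ρ g)) / Lam s (n + 2 * l) (ind E))
      atTop (𝓝 m) := by
  have h1 : ∀ φ : D.map ρ, ∃ (w : List I) (j : ℕ), wp s w ∈ D ∧ ρ (wp s w) = φ ∧
      w.length = 2 * j := by
    rintro ⟨_, c, hc, rfl⟩
    obtain ⟨w, rfl, j, hj⟩ := hev c hc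
    exact ⟨w, j, hc, rfl, by omega⟩
  choose w j hw1 hw2 hw3 using h1
  obtain ⟨J, hJ⟩ := (Set.finite_range j).bddAbove
  obtain ⟨R, hR⟩ : ∃ R, R = 2 * J + 2 := ⟨_, rfl⟩
  have hR0 : 0 < R := by omega
  choose u hu using fun φ => pad s τ hτ (w φ) (J + 1 - j φ) R (by
    have := hJ ⟨φ, rfl⟩
    rw [hw3]; omega)
  have hui : Function.Injective u := fun a b e =>
    Subtype.ext (by rw [← hw2, ← hw2, ← hu, ← hu, e])
  obtain ⟨M, hM⟩ := (Set.finite_range fun γ => |f γ - m|).bddAbove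
  have hM' : ∀ g, |ind E g * (f (ρ g) - m)| ≤ M := fun g => by
    rw [abs_mul, abs_of_nonneg (ind_nonneg _ _)]
    exact (mul_le_of_le_one_left (abs_nonneg _) (ind_le _ _)).trans (hM ⟨_, rfl⟩)
  have hM0 : 0 ≤ M := (abs_nonneg _).trans (hM' 1)
  have hH : ∀ A B : G, ∑ x, ind E (A * wp s (List.ofFn (u x)) * B) *
      (f (ρ (A * wp s (List.ofFn (u x)) * B)) - m) = 0 := by
    intro A B
    have e : ∀ x, A * wp s (List.ofFn (u x)) * B = A * B * (B⁻¹ * wp s (w x) * B) := fun x => by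
      rw [hu]; group
    have hd : ∀ x, B⁻¹ * wp s (w x) * B ∈ D := fun x => ‹D.Normal›.conj_mem' _ (hw1 x) B
    simp only [e]
    by_cases hAB : E (A * B)
    · have cj : ∀ (C : G) (x : D.map ρ), ρ C⁻¹ * x * ρ C ∈ D.map ρ := by
        rintro C ⟨_, c, hc, rfl⟩
        exact ⟨C⁻¹ * c * C, ‹D.Normal›.conj_mem' _ hc C, by simp⟩
      let σ : D.map ρ ≃ D.map ρ :=
        { toFun := fun x => ⟨_, cj B x⟩
          invFun := fun x => ⟨_, cj B⁻¹ x⟩
          left_inv := fun x => Subtype.ext (by simp [mul_assoc])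
          right_inv := fun x => Subtype.ext (by simp [mul_assoc]) }
      have h2 := hm _ hAB
      rw [← σ.sum_comp] at h2
      simp only [ind_pos (hE _ _ hAB (hd _)), one_mul, sum_sub_distrib, sum_const, card_univ,
        nsmul_eq_mul, ← h2]
      rw [sub_eq_zero]
      refine sum_congr rfl fun x _ => ?_
      rw [map_mul ρ (A * B), map_mul ρ (B⁻¹ * _), map_mul ρ B⁻¹, hw2]
      rfl
    · refine sum_eq_zero fun x _ => ?_
      rw [ind_neg fun h => hAB (by
        simpa only [mul_inv_cancel_right] using hE _ _ h (D.inv_mem (hd x))), zero_mul]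
  have hI : (1 : ℝ) ≤ Fintype.card I := Nat.one_le_cast.2 Fintype.card_pos
  obtain ⟨β, hβ⟩ : ∃ β : ℝ, β = 1 - Fintype.card (D.map ρ) / (Fintype.card I : ℝ) ^ R := ⟨_, rfl⟩
  have hβ1 : β < 1 := by
    have : (0 : ℝ) < Fintype.card (D.map ρ) := Nat.cast_pos.2 Fintype.card_pos
    rw [hβ, sub_lt_self_iff]; positivity
  have hβe : (Fintype.card I : ℝ) ^ R - Fintype.card (D.map ρ) = β * Fintype.card I ^ R := by
    rw [hβ]; field_simp
  have hβ0 : 0 ≤ β := by
    have := Fintype.card_le_of_injective u hui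
    rw [Fintype.card_fun, Fintype.card_fin] at this
    rw [hβ, sub_nonneg]
    exact div_le_one_of_le₀ (by exact_mod_cast this) (by positivity)
  have hup : ∀ L, |Lam s L fun g => ind E g * (f (ρ g) - m)| ≤
      β ^ (L / R) * (Fintype.card I ^ L * M) := by
    intro L
    have a1 := block s u hui _ (fun g => (abs_le.1 (hM' g)).1) (fun A B => (hH A B).ge)
      (L / R) (L % R) 1
    have a2 := block s u hui (fun g => -1 * (ind E g * (f (ρ g) - m))) (M := M)
      (fun g => by linarith [(abs_le.1 (hM' g)).2])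
      (fun A B => by rw [← mul_sum, hH, mul_zero]) (L / R) (L % R) 1
    rw [Lam_mul] at a2
    have e : (β * Fintype.card I ^ R) ^ (L / R) * (Fintype.card I ^ (L % R) * M) =
        β ^ (L / R) * (Fintype.card I ^ L * M) := by
      have : (Fintype.card I : ℝ) ^ L = Fintype.card I ^ (R * (L / R) + L % R) := by
        rw [Nat.div_add_mod]
      rw [this]
      ring
    simp only [one_mul, hβe, e, Nat.div_add_mod'] at a1 a2
    exact abs_le.2 ⟨a1, by linarith⟩
  have hRr : (1 : ℝ) ≤ R := Nat.one_le_cast.2 hR0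
  obtain ⟨θ, hθ0, hθ1, hθ⟩ : ∃ θ : ℝ, 0 < θ ∧ θ < 1 ∧ β < θ ^ R := by
    have a1 : 0 < (1 - β) / (2 * R) := div_pos (by linarith) (by linarith)
    have a2 : (1 - β) / (2 * R) ≤ 1 / 2 := by
      rw [div_le_div_iff₀ (by linarith) two_pos]; linarith
    refine ⟨1 + -((1 - β) / (2 * R)), by linarith, by linarith, ?_⟩
    refine lt_of_lt_of_le ?_ (one_add_mul_le_pow (by linarith) R)
    have : (R : ℝ) * -((1 - β) / (2 * R)) = -((1 - β) / 2) := by field_simp
    rw [this]; linarith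
  obtain ⟨c, hc, hlow⟩ := kes_lower s τ hτ hK hθ0 hθ1
  have hθR : 0 < θ ^ R := pow_pos hθ0 R
  have hk : Tendsto (fun l => (n + 2 * l) / R) atTop atTop :=
    (Nat.tendsto_div_const_atTop hR0.ne').comp
      (tendsto_atTop_mono (fun l => by dsimp only [id]; omega) tendsto_id)
  have hz := ((tendsto_pow_atTop_nhds_zero_of_lt_one (div_nonneg hβ0 hθR.le)
    ((div_lt_one hθR).2 hθ)).comp hk).const_mul
      (M * Fintype.card I ^ w0.length / (c * θ ^ R))
  rw [mul_zero] at hz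
  rw [tendsto_iff_norm_sub_tendsto_zero]
  refine squeeze_zero' (Eventually.of_forall fun _ => norm_nonneg _) ?_ hz
  filter_upwards [eventually_ge_atTop w0.length] with l hl
  obtain ⟨t, ht⟩ : ∃ t, n + 2 * l = w0.length + 2 * t := by
    obtain ⟨a, ha⟩ := hn
    exact ⟨a + l - w0.length, by omega⟩
  have a1 : c * (θ * Fintype.card I) ^ (2 * t) ≤ Lam s (n + 2 * l) (ind E) := by
    rw [ht]
    refine (hlow t).trans (le_trans ?_ (Lam_W s hE _ _))
    refine le_mul_of_one_le_left (W_nonneg s D _) ?_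
    have := Lam_term s w0 (ind_nonneg E)
    rwa [ind_pos h0] at this
  have a0 : 0 < c * (θ * Fintype.card I) ^ (2 * t) := by positivity
  have a2 := a0.trans_le a1
  have e : Lam s (n + 2 * l) (fun g => ind E g * f (ρ g)) / Lam s (n + 2 * l) (ind E) - m =
      Lam s (n + 2 * l) (fun g => ind E g * (f (ρ g) - m)) / Lam s (n + 2 * l) (ind E) := by
    simp only [mul_sub, Lam_sub, mul_comm (ind E _) m, Lam_mul]
    field_simp
  rw [e, Real.norm_eq_abs, abs_div, abs_of_pos a2]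
  refine (div_le_div₀ (by positivity) (hup _) a0 a1).trans ?_
  have a3 : (θ ^ R) ^ ((n + 2 * l) / R) * θ ^ R ≤ θ ^ (2 * t) := by
    rw [← pow_succ, ← pow_mul]
    refine pow_le_pow_of_le_one hθ0.le hθ1.le ?_
    have := Nat.lt_mul_div_succ (n + 2 * l) hR0
    omega
  simp only [Function.comp]
  generalize (n + 2 * l) / R = k at a3 ⊢
  rw [ht, pow_add, mul_pow, div_pow, div_le_iff₀ (by positivity)]
  calc _ = M * Fintype.card I ^ w0.length / (c * θ ^ R) * (β ^ k / (θ ^ R) ^ k) *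
        (c * (((θ ^ R) ^ k * θ ^ R) * Fintype.card I ^ (2 * t))) := by field_simp
    _ ≤ _ := by gcongr

end Pool.Agent.P.MP_cc10d1_gt.R
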